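import Pool.Agent.T9h44.LS4.Stm2

/-!
# Local smoothing in the mean over dilations (helper44): statements of the last parts
-/

set_option autoImplicit false

namespace Pool.Agent.T9h44.LS5

open MeasureTheory Real Pool.Agent.N303.LS Pool.Agent.T9h44.LS4
open scoped ENNReal SchwartzMap RealInnerProductSpace FourierTransform

/-- (H1) the `L^1` norm of the kernel -/
def S_KL1 (n : ℕ) : Prop :=
  ∀ ε : ℝ, 0 < ε → ∃ C : ℝ, 0 < C ∧ ∀ g ∈ box n, ∀ y t : ℝ, 0 < y → y ≤ 1 →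
    t ∈ Set.Icc (1 : ℝ) 2 → ∫⁻ z : Fin n → ℝ, ‖Ker n y (t ^ 2 - y ^ 2 / t ^ 2) g z‖ₑ ≤
      ENNReal.ofReal (C * y ^ (-(((n : ℝ) - 1) / 2 + ε)))

/-- (H2) interpolation between the exponents `4` and `∞` -/
def S_INF (p : ℝ) : Prop :=
  ∃ C : ℝ, 0 < C ∧ ∀ (X : Type) [MeasurableSpace X] (μ : Measure X) (n : ℕ)
    (T : ((Fin n → ℝ) → ℂ) → X → ℂ) (A4 : ℝ≥0∞) (Ai : ℝ), 0 < Ai →
    (∀ F, Measurable F → Integrable F → (∃ B : ℝ, ∀ y, ‖F y‖ ≤ B) →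
      AEStronglyMeasurable (T F) μ) →
    (∀ F, Measurable F → Integrable F → (∃ B : ℝ, ∀ y, ‖F y‖ ≤ B) →
      ∫⁻ x, ‖T F x‖ₑ ^ (4 : ℝ) ∂μ ≤ A4 * ∫⁻ y, ‖F y‖ₑ ^ (4 : ℝ)) →
    (∀ F, Measurable F → Integrable F → ∀ B : ℝ, (∀ y, ‖F y‖ ≤ B) →
      ∀ᵐ x ∂μ, ‖T F x‖ ≤ Ai * B) →
    (∀ F G, Measurable F → Integrable F → (∃ B : ℝ, ∀ y, ‖F y‖ ≤ B) →
      Measurable G → Integrable G → (∃ B : ℝ, ∀ y, ‖G y‖ ≤ B) →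
      ∀ x, ‖T (F + G) x‖ ≤ ‖T F x‖ + ‖T G x‖) →
    ∀ F, Measurable F → Integrable F → (∃ B : ℝ, ∀ y, ‖F y‖ ≤ B) →
      ∫⁻ x, ‖T F x‖ₑ ^ p ∂μ ≤ ENNReal.ofReal (C * Ai ^ (p - 4)) * A4 * ∫⁻ y, ‖F y‖ₑ ^ p

/-- the solution of the wave equation with the data whose Fourier transforms are `F₀`, `F₁` -/
noncomputable def wave {n : ℕ} (F₀ F₁ : E n → ℂ) (t : ℝ) (x : E n) : ℂ :=
  inv (fun ξ => ((Real.cos (2 * π * t * ‖ξ‖) : ℝ) : ℂ) * F₀ ξ +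
    ((Real.sin (2 * π * t * ‖ξ‖) / (2 * π * ‖ξ‖) : ℝ) : ℂ) * F₁ ξ) x

/-- the solution of the wave equation of the metric `g` -/
noncomputable def waveg {n : ℕ} (g : Fin n → ℝ) (F₀ F₁ : E n → ℂ) (t : ℝ) (x : E n) : ℂ :=
  inv (fun ξ => ((Real.cos (2 * π * t * Ng g ξ) : ℝ) : ℂ) * F₀ ξ +
    ((Real.sin (2 * π * t * Ng g ξ) / (2 * π * Ng g ξ) : ℝ) : ℂ) * F₁ ξ) x

/-- the dilation `x ↦ (x_j / √g_j)_j` -/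
noncomputable def dilm {n : ℕ} (g : Fin n → ℝ) (x : E n) : E n :=
  WithLp.toLp 2 fun i => x i / Real.sqrt (g i)

/-- (H3) dilated data -/
def S_DIL (n : ℕ) : Prop :=
  ∀ (g : Fin n → ℝ), (∀ i, 0 < g i) → ∀ (u₀ u₁ : 𝓢(E n, ℂ)) (t p : ℝ), 1 ≤ p →
    ∫⁻ x : E n, ‖wave (𝓕 fun x => u₀ (dilm g x)) (𝓕 fun x => u₁ (dilm g x)) t x‖ₑ ^ p =
      ENNReal.ofReal (∏ i, Real.sqrt (g i)) *
        ∫⁻ x : E n, ‖waveg g (𝓕 (u₀ : E n → ℂ)) (𝓕 (u₁ : E n → ℂ)) t x‖ₑ ^ p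

end Pool.Agent.T9h44.LS5
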