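import Pool.Agent.T9h44.LS5.C5
import Pool.Agent.T9h82.LS.KL1
import Pool.Agent.T9h18.LS.Inf
import Pool.Agent.T9h67.LS.Dil

/-!
# Local smoothing in the mean over dilations (helper44): the theorem
-/

set_option autoImplicit false

namespace Pool.Agent.T9h44.LS5

open MeasureTheory Real Pool.Agent.N303.LS Pool.Agent.T9h44.LS4
open scoped ENNReal SchwartzMap RealInnerProductSpace FourierTransform

variable {n : ℕ}

lemma ex_lt (n k : ℕ) (p σ : ℝ) (hp : 2 ≤ p)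
    (hσ : σ < ((k : ℝ) - 2) * min (1 / 2 - 1 / p) (1 / p)) :
    ex n k p < (((n : ℝ) - 1) / 2 - ((n : ℝ) - 1) / p - σ) * p := by
  have hp0 : 0 < p := by linarith
  have h1 : (((n : ℝ) - 1) / 2 - ((n : ℝ) - 1) / p - σ) * p =
      ((n : ℝ) - 1) * ((p - 2) / 2) - σ * p := by
    field_simp
  rw [h1]
  unfold ex
  split_ifs with h
  · have h2 : min (1 / 2 - 1 / p) (1 / p) = 1 / 2 - 1 / p := by
      refine min_eq_left ?_
      have : 1 / 4 ≤ 1 / p := one_div_le_one_div_of_le hp0 h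
      linarith
    rw [h2] at hσ
    have h3 : σ * p < ((k : ℝ) - 2) * ((p - 2) / 2) := by
      calc σ * p < (((k : ℝ) - 2) * (1 / 2 - 1 / p)) * p := mul_lt_mul_of_pos_right hσ hp0
        _ = _ := by field_simp
    linarith
  · push Not at h
    have h2 : min (1 / 2 - 1 / p) (1 / p) = 1 / p := by
      refine min_eq_right ?_
      have : 1 / p ≤ 1 / 4 := one_div_le_one_div_of_le (by norm_num) h.le
      linarith
    rw [h2] at hσ
    have h3 : σ * p < (k : ℝ) - 2 := by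
      calc σ * p < (((k : ℝ) - 2) * (1 / p)) * p := mul_lt_mul_of_pos_right hσ hp0
        _ = _ := by field_simp
    linarith

/-- local smoothing in the mean over dilations -/
theorem final (hn : 1 ≤ n) (I : Finset (Fin n)) (p : ℝ) (hp : 2 ≤ p) (σ : ℝ)
    (hσ : σ < ((I.card : ℝ) - 2) * min (1 / 2 - 1 / p) (1 / p)) :
    ∃ C : ℝ, 0 < C ∧ ∀ g₀ ∈ box n, ∀ u₀ u₁ : 𝓢(E n, ℂ),
      ∫⁻ g in box n, ∫⁻ t in Set.Icc (1 : ℝ) 2, ∫⁻ x : E n,
        ‖wave (𝓕 fun x => u₀ (dilm (mix I g₀ g) x)) (𝓕 fun x => u₁ (dilm (mix I g₀ g) x)) t x‖ₑ ^ p ≤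
      ENNReal.ofReal C *
        ((∫⁻ x : E n, ‖inv (fun ξ => bes (((n : ℝ) - 1) / 2 - ((n : ℝ) - 1) / p - σ) ξ *
          𝓕 (u₀ : E n → ℂ) ξ) x‖ₑ ^ p) +
        ∫⁻ x : E n, ‖inv (fun ξ => bes (((n : ℝ) - 1) / 2 - ((n : ℝ) - 1) / p - σ - 1) ξ *
          𝓕 (u₁ : E n → ℂ) ξ) x‖ₑ ^ p) := by
  obtain ⟨K, hK, h⟩ := metrics hn (Pool.Agent.T9h82.LS.kl1 hn)
    (fun p hp => Pool.Agent.T9h18.LS.inf p hp) I p hp _ (ex_lt n I.card p σ hp hσ)
  set c : ℝ := (2 : ℝ) ^ n with hc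
  refine ⟨c * K, by positivity, ?_⟩
  intro g₀ hg₀ u₀ u₁
  calc ∫⁻ g in box n, ∫⁻ t in Set.Icc (1 : ℝ) 2, ∫⁻ x : E n,
        ‖wave (𝓕 fun x => u₀ (dilm (mix I g₀ g) x)) (𝓕 fun x => u₁ (dilm (mix I g₀ g) x)) t x‖ₑ ^ p
      ≤ ∫⁻ g in box n, ∫⁻ t in Set.Icc (1 : ℝ) 2, ENNReal.ofReal c * ∫⁻ x : E n,
          ‖waveg (mix I g₀ g) (𝓕 (u₀ : E n → ℂ)) (𝓕 (u₁ : E n → ℂ)) t x‖ₑ ^ p := by
        refine setLIntegral_mono' measurableSet_box fun g hg => lintegral_mono fun t => ?_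
        have hm := mix_mem I g₀ g hg₀ hg
        simp only
        rw [Pool.Agent.T9h67.LS.dil n (mix I g₀ g) (fun i => by linarith [(hm i).1]) u₀ u₁ t p
          (by linarith)]
        refine mul_le_mul' (ENNReal.ofReal_le_ofReal ?_) le_rfl
        calc ∏ i, Real.sqrt (mix I g₀ g i) ≤ ∏ i : Fin n, (2 : ℝ) := by
              refine Finset.prod_le_prod (fun i _ => Real.sqrt_nonneg _) fun i _ => ?_
              rw [Real.sqrt_le_left (by norm_num)]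
              linarith [(hm i).2]
          _ = c := by
              rw [hc]
              simp
    _ = ENNReal.ofReal c * ∫⁻ g in box n, ∫⁻ t in Set.Icc (1 : ℝ) 2, ∫⁻ x : E n,
          ‖waveg (mix I g₀ g) (𝓕 (u₀ : E n → ℂ)) (𝓕 (u₁ : E n → ℂ)) t x‖ₑ ^ p := by
        rw [← lintegral_const_mul' _ _ ENNReal.ofReal_ne_top]
        refine lintegral_congr fun g => ?_
        rw [← lintegral_const_mul' _ _ ENNReal.ofReal_ne_top]
    _ ≤ ENNReal.ofReal c * (ENNReal.ofReal K * _) := mul_le_mul' le_rfl (h g₀ hg₀ u₀ u₁)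
    _ = _ := by
        rw [← mul_assoc, ← ENNReal.ofReal_mul (by positivity)]

end Pool.Agent.T9h44.LS5
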