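import Pool.Agent.T9h44.LS4.ME3

/-!
# Local smoothing in the mean over dilations (helper44): the mean over some of the coefficients
-/

set_option autoImplicit false

namespace Pool.Agent.T9h44.LS5

open MeasureTheory Real Pool.Agent.T9h44.LS4
open scoped ENNReal ComplexConjugate

variable {n : ℕ}

/-- the metric whose coefficients with an index in `I` vary -/
def mix (I : Finset (Fin n)) (g₀ g : Fin n → ℝ) : Fin n → ℝ := fun i => if i ∈ I then g i else g₀ i

lemma mix_mem (I : Finset (Fin n)) (g₀ g : Fin n → ℝ) (h₀ : g₀ ∈ box n) (h : g ∈ box n) :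
    mix I g₀ g ∈ box n := by
  intro i
  unfold mix
  split_ifs
  · exact h i
  · exact h₀ i

lemma mix_cont (I : Finset (Fin n)) (g₀ : Fin n → ℝ) : Continuous (mix I g₀) := by
  unfold mix
  refine continuous_pi fun i => ?_
  by_cases h : i ∈ I
  · simp only [h, if_true]
    exact continuous_apply i
  · simp only [h, if_false]
    exact continuous_const

/-- the projection to the coordinates in `I` -/
def prI (I : Finset (Fin n)) (z : Fin n → ℝ) : Fin n → ℝ := fun i => if i ∈ I then z i else 0

lemma prI_cont (I : Finset (Fin n)) : Continuous (prI I) := by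
  unfold prI
  refine continuous_pi fun i => ?_
  by_cases h : i ∈ I
  · simp only [h, if_true]
    exact continuous_apply i
  · simp only [h, if_false]
    exact continuous_const

/-- the mean over the metrics, with a projection -/
lemma mean_metricP (P : (Fin n → ℝ) → (Fin n → ℝ)) (hP : Continuous P) (l : ℝ)
    (B : (Fin n → ℝ) → ℂ) (hB : Integrable B) :
    ∫⁻ g : Fin n → ℝ, ENNReal.ofReal (Gw g) * ‖∫ z, os l (q g (P z)) * B z‖ₑ ^ 2 ≤
      ∫⁻ z : Fin n → ℝ, ∫⁻ v : Fin n → ℝ, ‖B z‖ₑ * ‖B v‖ₑ *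
        ENNReal.ofReal (∏ i, K1 l (P z i) (P v i)) := by
  set Φ : (Fin n → ℝ) → ℂ := fun g => ∫ z, os l (q g (P z)) * B z with hΦ
  -- measurability and bounds
  have hcq : Continuous fun p : (Fin n → ℝ) × (Fin n → ℝ) => os l (q p.1 (P p.2)) :=
    continuous_os.comp (continuous_const.prodMk (continuous_q.comp (continuous_fst.prodMk
      (hP.comp continuous_snd))))
  have hi : ∀ g, Integrable fun z => os l (q g (P z)) * B z := by
    intro g
    refine hB.bdd_mul (c := 1) ?_ (Filter.Eventually.of_forall fun z => (norm_os _ _).le)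
    exact (hcq.comp (Continuous.prodMk_right g)).aestronglyMeasurable
  set M : ℝ := ∫ z, ‖B z‖ with hM
  have hΦb : ∀ g, ‖Φ g‖ ≤ M := by
    intro g
    refine (norm_integral_le_integral_norm _).trans (le_of_eq ?_)
    refine integral_congr_ae (Filter.Eventually.of_forall fun z => ?_)
    simp only [norm_mul, norm_os, one_mul]
  have hΦc : Continuous Φ := by
    refine continuous_of_dominated (bound := fun z => ‖B z‖) (fun g => (hi g).aestronglyMeasurable)
      (fun g => Filter.Eventually.of_forall fun z => ?_) hB.norm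
      (Filter.Eventually.of_forall fun z => ?_)
    · rw [norm_mul, norm_os, one_mul]
    · exact (hcq.comp (Continuous.prodMk_left z)).mul continuous_const
  have hM0 : 0 ≤ M := integral_nonneg fun _ => norm_nonneg _
  have hint : Integrable fun g : Fin n → ℝ => Gw g * ‖Φ g‖ ^ 2 := by
    refine Integrable.mono' (g := fun g => Gw g * M ^ 2) (integrable_Gw.mul_const _)
      (continuous_Gw.mul (hΦc.norm.pow 2)).aestronglyMeasurable
      (Filter.Eventually.of_forall fun g => ?_)
    rw [Real.norm_of_nonneg (by have := Gw_pos g; positivity)]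
    have := hΦb g
    have h2 := Gw_pos g
    gcongr
  have h1 : ∫⁻ g : Fin n → ℝ, ENNReal.ofReal (Gw g) * ‖Φ g‖ₑ ^ 2 =
      ENNReal.ofReal (∫ g, Gw g * ‖Φ g‖ ^ 2) := by
    rw [ofReal_integral_eq_lintegral_ofReal hint
      (Filter.Eventually.of_forall fun g => by have := Gw_pos g; positivity)]
    refine lintegral_congr fun g => ?_
    rw [ENNReal.ofReal_mul (Gw_pos g).le, ENNReal.ofReal_pow (norm_nonneg _), ofReal_norm]
  -- the integral over pairs
  set Ψ : (Fin n → ℝ) → (Fin n → ℝ) × (Fin n → ℝ) → ℂ := fun g p =>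
    ((Gw g : ℝ) : ℂ) * ((os l (q g (P p.1)) * B p.1) * conj (os l (q g (P p.2)) * B p.2)) with hΨ
  have hBc : Integrable fun v => conj (B v) := by
    refine ⟨Complex.continuous_conj.comp_aestronglyMeasurable hB.aestronglyMeasurable, ?_⟩
    have := hB.2
    unfold HasFiniteIntegral at *
    refine lt_of_le_of_lt (lintegral_mono fun v => ?_) this
    rw [← ofReal_norm, ← ofReal_norm, RCLike.norm_conj]
  have hPint : Integrable (Function.uncurry Ψ) (volume.prod (volume.prod volume)) := by
    have h3 : Integrable (fun a : (Fin n → ℝ) × ((Fin n → ℝ) × (Fin n → ℝ)) =>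
        ((Gw a.1 : ℝ) : ℂ) * (B a.2.1 * conj (B a.2.2))) (volume.prod (volume.prod volume)) :=
      (integrable_Gw.ofReal).mul_prod (hB.mul_prod hBc)
    have h4 : Continuous fun a : (Fin n → ℝ) × ((Fin n → ℝ) × (Fin n → ℝ)) =>
        os l (q a.1 (P a.2.1)) * conj (os l (q a.1 (P a.2.2))) := by
      refine (hcq.comp (by fun_prop :
        Continuous fun a : (Fin n → ℝ) × ((Fin n → ℝ) × (Fin n → ℝ)) => (a.1, a.2.1))).mul ?_
      exact Complex.continuous_conj.comp (hcq.comp (by fun_prop :
        Continuous fun a : (Fin n → ℝ) × ((Fin n → ℝ) × (Fin n → ℝ)) => (a.1, a.2.2)))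
    have h5 := h3.bdd_mul (c := 1) h4.aestronglyMeasurable (Filter.Eventually.of_forall fun a => by
      rw [norm_mul, RCLike.norm_conj, norm_os, norm_os, one_mul])
    refine h5.congr (Filter.Eventually.of_forall fun a => ?_)
    simp only [Function.uncurry, hΨ, map_mul]
    ring
  have h2 : ((∫ g, Gw g * ‖Φ g‖ ^ 2 : ℝ) : ℂ) = ∫ g, ∫ p, Ψ g p ∂(volume.prod volume) := by
    rw [← integral_complex_ofReal]
    refine integral_congr_ae (Filter.Eventually.of_forall fun g => ?_)
    simp only [hΨ]
    rw [integral_const_mul, integral_prod_mul (fun z => os l (q g (P z)) * B z)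
      (fun v => conj (os l (q g (P v)) * B v)), integral_conj]
    push_cast
    congr 1
    rw [← Complex.ofReal_pow, ← Complex.normSq_eq_norm_sq, ← Complex.mul_conj]
  have h3 : (∫ g, ∫ p, Ψ g p ∂(volume.prod volume)) = ∫ p : (Fin n → ℝ) × (Fin n → ℝ),
      B p.1 * conj (B p.2) * ((∏ i, K1 l (P p.1 i) (P p.2 i) : ℝ) : ℂ) ∂(volume.prod volume) := by
    rw [integral_integral_swap hPint]
    refine integral_congr_ae (Filter.Eventually.of_forall fun p => ?_)
    simp only [hΨ]
    rw [← intn l (P p.1) (P p.2), ← integral_const_mul]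
    refine integral_congr_ae (Filter.Eventually.of_forall fun g => ?_)
    simp only [map_mul]
    ring
  rw [h1]
  have h4 : ENNReal.ofReal (∫ g, Gw g * ‖Φ g‖ ^ 2) ≤
      ‖((∫ g, Gw g * ‖Φ g‖ ^ 2 : ℝ) : ℂ)‖ₑ := by
    rw [← ofReal_norm, Complex.norm_real]
    exact ENNReal.ofReal_le_ofReal (le_abs_self _)
  refine h4.trans ?_
  rw [h2, h3]
  refine (enorm_integral_le_lintegral_enorm _).trans ?_
  rw [lintegral_prod _ ?_]
  · refine lintegral_mono fun z => lintegral_mono fun v => ?_
    simp only [enorm_mul]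
    refine le_of_eq ?_
    congr 1
    · congr 1
      rw [← ofReal_norm, ← ofReal_norm, RCLike.norm_conj]
    · rw [← ofReal_norm, Complex.norm_real, Real.norm_of_nonneg]
      exact Finset.prod_nonneg fun i _ => K1_nonneg _ _ _
  · refine AEMeasurable.enorm ?_
    refine AEMeasurable.mul ?_ ?_
    · exact (hB.aestronglyMeasurable.comp_fst.mul hBc.aestronglyMeasurable.comp_snd).aemeasurable
    · refine (Continuous.measurable ?_).aemeasurable
      unfold K1
      fun_prop

lemma lint_prod_dep : ∀ (n : ℕ) (f : Fin n → ℝ → ℝ≥0∞) (_ : ∀ i, Measurable (f i)),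
    ∫⁻ z : Fin n → ℝ, ∏ i, f i (z i) = ∏ i, ∫⁻ x, f i x
  | 0, f, _ => by simp [volume_pi]
  | n + 1, f, hf => by
    have h1 := ((volume_preserving_piFinSuccAbove (fun _ : Fin (n + 1) => ℝ)
      0).symm).lintegral_comp_emb (MeasurableEquiv.measurableEmbedding _)
      (fun z : Fin (n + 1) → ℝ => ∏ i, f i (z i))
    have h2 : ∀ a : ℝ × (Fin n → ℝ), (∏ i, f i ((MeasurableEquiv.piFinSuccAbove
        (fun _ : Fin (n + 1) => ℝ) 0).symm a i)) = f 0 a.1 * ∏ i, f (Fin.succ i) (a.2 i) := by
      intro a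
      rw [Fin.prod_univ_succ]
      rfl
    rw [← h1]
    have h := lint_prod_dep n (fun i => f (Fin.succ i)) (fun i => hf _)
    rw [Fin.prod_univ_succ, ← h]
    refine (lintegral_congr h2).trans ?_
    exact lintegral_prod_mul (μ := (volume : Measure ℝ)) (ν := (volume : Measure (Fin n → ℝ)))
      (g := fun z : Fin n → ℝ => ∏ i, f (Fin.succ i) (z i)) (hf 0).aemeasurable
      (Finset.measurable_prod _ fun i _ => (hf _).comp (measurable_pi_apply i)).aemeasurable

/-- the weights -/
noncomputable def wI (I : Finset (Fin n)) (ε l L : ℝ) (i : Fin n) (z : ℝ) : ℝ≥0∞ :=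
  if i ∈ I then w1 ε l z else ENNReal.ofReal (2 * L)

lemma meas_wI (I : Finset (Fin n)) (ε l L : ℝ) (i : Fin n) : Measurable (wI I ε l L i) := by
  unfold wI
  by_cases h : i ∈ I
  · simp only [h, if_true]
    unfold w1
    fun_prop
  · simp only [h, if_false]
    exact measurable_const

/-- the kernel of one coordinate -/
noncomputable def kI (I : Finset (Fin n)) (l L : ℝ) (i : Fin n) (z v : ℝ) : ℝ≥0∞ :=
  if i ∈ I then ENNReal.ofReal (K1 l z v) else if |z| ≤ L ∧ |v| ≤ L then 1 else 0

lemma kI_symm (I : Finset (Fin n)) (l L : ℝ) (i : Fin n) (z v : ℝ) :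
    kI I l L i z v = kI I l L i v z := by
  unfold kI
  rw [K1_symm l z v]
  simp only [and_comm (a := |z| ≤ L)]

lemma kI_int (I : Finset (Fin n)) (ε l L : ℝ) (hε : 0 < ε) (hε1 : ε < 1) (hl : 0 < l)
    (i : Fin n) (z : ℝ) : ∫⁻ v : ℝ, kI I l L i z v ≤ wI I ε l L i z := by
  unfold kI wI
  by_cases h : i ∈ I
  · simp only [h, if_true]
    exact K1_w1 ε l z hε hε1 hl
  · simp only [h, if_false]
    calc ∫⁻ v : ℝ, (if |z| ≤ L ∧ |v| ≤ L then (1 : ℝ≥0∞) else 0)
        ≤ ∫⁻ v : ℝ, (Set.Icc (-L) L).indicator (fun _ => (1 : ℝ≥0∞)) v := by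
          refine lintegral_mono fun v => ?_
          simp only
          by_cases hv : |z| ≤ L ∧ |v| ≤ L
          · rw [if_pos hv, Set.indicator_of_mem]
            exact abs_le.1 hv.2
          · rw [if_neg hv]
            exact zero_le
      _ = ENNReal.ofReal (2 * L) := by
          rw [lintegral_indicator measurableSet_Icc, setLIntegral_const, Real.volume_Icc, one_mul]
          congr 1
          ring

lemma meas_kI (I : Finset (Fin n)) (l L : ℝ) (i : Fin n) :
    Measurable fun p : ℝ × ℝ => kI I l L i p.1 p.2 := by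
  unfold kI
  by_cases h : i ∈ I
  · simp only [h, if_true]
    unfold K1
    fun_prop
  · simp only [h, if_false]
    have h1 : MeasurableSet {p : ℝ × ℝ | |p.1| ≤ L} := measurableSet_le (by fun_prop)
      measurable_const
    have h2 : MeasurableSet {p : ℝ × ℝ | |p.2| ≤ L} := measurableSet_le (by fun_prop)
      measurable_const
    exact Measurable.ite (h1.inter h2) measurable_const measurable_const

/-- the mean over some of the coefficients -/
theorem mean_mix (I : Finset (Fin n)) (g₀ : Fin n → ℝ) (ε l L : ℝ) (hε : 0 < ε) (hε1 : ε < 1)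
    (hl : 0 < l) (B : (Fin n → ℝ) → ℂ) (hB : Integrable B)
    (hs : ∀ z, B z ≠ 0 → ∀ i, |z i| ≤ L) :
    ∫⁻ g in box n, ‖∫ z, os l (q (mix I g₀ g) z) * B z‖ₑ ^ 2 ≤
      ENNReal.ofReal (2 * Real.exp (4 * π) ^ n) * ∫⁻ z : Fin n → ℝ, ‖B z‖ₑ ^ 2 *
        ∏ i, wI I ε l L i (z i) := by
  set B' : (Fin n → ℝ) → ℂ := fun z => os l (∑ i, if i ∈ I then 0 else g₀ i * z i ^ 2) * B z
    with hB'
  have hn' : ∀ z, ‖B' z‖ₑ = ‖B z‖ₑ := fun z => by
    rw [← ofReal_norm, ← ofReal_norm, hB']
    simp only [norm_mul, norm_os, one_mul]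
  have hc : Continuous fun z : Fin n → ℝ => os l (∑ i, if i ∈ I then 0 else g₀ i * z i ^ 2) := by
    have hsum : Continuous fun z : Fin n → ℝ => ∑ i, if i ∈ I then 0 else g₀ i * z i ^ 2 := by
      refine continuous_finsetSum _ fun i _ => ?_
      by_cases h : i ∈ I
      · simp only [h, if_true]
        exact continuous_const
      · simp only [h, if_false]
        fun_prop
    exact continuous_os.comp (continuous_const.prodMk hsum)
  have hBi : Integrable B' := hB.bdd_mul (c := 1) hc.aestronglyMeasurable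
    (Filter.Eventually.of_forall fun z => (norm_os _ _).le)
  have hq : ∀ g z, os l (q (mix I g₀ g) z) * B z = os l (q g (prI I z)) * B' z := by
    intro g z
    simp only [hB']
    rw [← mul_assoc, ← os_add]
    congr 2
    unfold q mix prI
    rw [← Finset.sum_add_distrib]
    refine Finset.sum_congr rfl fun i _ => ?_
    split_ifs <;> ring
  simp only [hq]
  calc ∫⁻ g in box n, ‖∫ z, os l (q g (prI I z)) * B' z‖ₑ ^ 2
      ≤ ∫⁻ g in box n, ENNReal.ofReal (Real.exp (4 * π) ^ n) *
          (ENNReal.ofReal (Gw g) * ‖∫ z, os l (q g (prI I z)) * B' z‖ₑ ^ 2) := by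
        refine setLIntegral_mono' measurableSet_box fun g hg => ?_
        rw [← mul_assoc]
        exact le_mul_of_one_le_left zero_le (one_le_Gw g hg)
    _ ≤ ∫⁻ g, ENNReal.ofReal (Real.exp (4 * π) ^ n) *
          (ENNReal.ofReal (Gw g) * ‖∫ z, os l (q g (prI I z)) * B' z‖ₑ ^ 2) :=
        setLIntegral_le_lintegral _ _
    _ = ENNReal.ofReal (Real.exp (4 * π) ^ n) * ∫⁻ g,
          (ENNReal.ofReal (Gw g) * ‖∫ z, os l (q g (prI I z)) * B' z‖ₑ ^ 2) := by
        rw [lintegral_const_mul' _ _ ENNReal.ofReal_ne_top]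
    _ ≤ ENNReal.ofReal (Real.exp (4 * π) ^ n) * (∫⁻ z : Fin n → ℝ, ∫⁻ v : Fin n → ℝ,
          ‖B z‖ₑ * ‖B v‖ₑ * ∏ i, kI I l L i (z i) (v i)) := by
        refine mul_le_mul' le_rfl ((mean_metricP (prI I) (prI_cont I) l B' hBi).trans ?_)
        refine lintegral_mono fun z => lintegral_mono fun v => ?_
        simp only
        rw [hn', hn']
        by_cases hz : B z = 0
        · rw [hz, enorm_zero]
          simp
        by_cases hv : B v = 0
        · rw [hv, enorm_zero]
          simp
        refine mul_le_mul' le_rfl ?_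
        rw [ENNReal.ofReal_prod_of_nonneg fun i _ => K1_nonneg _ _ _]
        refine Finset.prod_le_prod' fun i _ => ?_
        unfold prI kI
        by_cases h : i ∈ I
        · simp only [h, if_true]
          exact le_rfl
        · simp only [h, if_false]
          rw [if_pos ⟨hs z hz i, hs v hv i⟩]
          unfold K1
          norm_num
    _ ≤ ENNReal.ofReal (Real.exp (4 * π) ^ n) * (2 * ∫⁻ z, ‖B z‖ₑ ^ 2 *
          ∫⁻ v : Fin n → ℝ, ∏ i, kI I l L i (z i) (v i)) := by
        refine mul_le_mul' le_rfl ?_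
        refine schur (fun z => ‖B z‖ₑ) hB.aestronglyMeasurable.enorm
          (fun z v => ∏ i, kI I l L i (z i) (v i)) ?_ ?_
        · refine Finset.measurable_prod _ fun i _ => ?_
          exact Measurable.comp (g := fun p : ℝ × ℝ => kI I l L i p.1 p.2)
            (f := fun p : (Fin n → ℝ) × (Fin n → ℝ) => (p.1 i, p.2 i)) (meas_kI I l L i)
            (by fun_prop)
        · intro z v
          simp only [kI_symm I l L _ (z _) (v _)]
    _ ≤ ENNReal.ofReal (Real.exp (4 * π) ^ n) * (2 * ∫⁻ z, ‖B z‖ₑ ^ 2 *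
          ∏ i, wI I ε l L i (z i)) := by
        refine mul_le_mul' le_rfl (mul_le_mul' le_rfl (lintegral_mono fun z => ?_))
        refine mul_le_mul' le_rfl ?_
        have hmz : ∀ i, Measurable fun v : ℝ => kI I l L i (z i) v := fun i =>
          Measurable.comp (g := fun p : ℝ × ℝ => kI I l L i p.1 p.2)
            (f := fun v : ℝ => (z i, v)) (meas_kI I l L i) (by fun_prop)
        rw [lint_prod_dep n (fun i v => kI I l L i (z i) v) hmz]
        exact Finset.prod_le_prod' fun i _ => kI_int I ε l L hε hε1 hl i (z i)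
    _ = _ := by
        rw [← mul_assoc]
        congr 1
        rw [mul_comm (2 : ℝ), ENNReal.ofReal_mul (by positivity), ENNReal.ofReal_ofNat]

end Pool.Agent.T9h44.LS5
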