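import Pool.Agent.T9h44.LS5.C1
import Pool.Agent.T9h44.LS4.ME4

/-!
# Local smoothing in the mean over dilations (helper44): functions supported in a cube
-/

set_option autoImplicit false

namespace Pool.Agent.T9h44.LS5

open MeasureTheory Real Pool.Agent.T9h44.LS4 Pool.Agent.TH280.LS
open scoped ENNReal ComplexConjugate

variable {n : ℕ}

/-- the estimate of the bilinear average: the integral over the support -/
lemma supp_intI (I : Finset (Fin n)) {F : (Fin n → ℝ) → ℂ} (hF : Measurable F) (L : ℝ)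
    (hL : ∀ u v, F u ≠ 0 → F v ≠ 0 → ∀ i, |u i - v i| ≤ L) (ε l θ : ℝ) :
    ∫⁻ u, ∫⁻ z : Fin n → ℝ, ‖F (u + (1 - θ) • z) * F (u - θ • z)‖ₑ ^ 2 * ∏ i, wI I ε l L i (z i) ≤
      (∏ i, ∫⁻ z in Set.Icc (-L) L, wI I ε l L i z) * ∫⁻ u, ‖F u‖ₑ ^ 4 := by
  have hm1 : Measurable fun p : (Fin n → ℝ) × (Fin n → ℝ) => F (p.1 + (1 - θ) • p.2) :=
    hF.comp (by fun_prop)
  have hm2 : Measurable fun p : (Fin n → ℝ) × (Fin n → ℝ) => F (p.1 - θ • p.2) :=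
    hF.comp (by fun_prop)
  have hmw : Measurable fun z : Fin n → ℝ => ∏ i, wI I ε l L i (z i) :=
    Finset.measurable_prod _ fun i _ => (meas_wI I ε l L i).comp (measurable_pi_apply i)
  have hswap : ∫⁻ u, ∫⁻ z : Fin n → ℝ, ‖F (u + (1 - θ) • z) * F (u - θ • z)‖ₑ ^ 2 *
      ∏ i, wI I ε l L i (z i) = ∫⁻ z : Fin n → ℝ, ∫⁻ u, ‖F (u + (1 - θ) • z) * F (u - θ • z)‖ₑ ^ 2 *
      ∏ i, wI I ε l L i (z i) := by
    refine lintegral_lintegral_swap ?_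
    refine Measurable.aemeasurable ?_
    exact ((hm1.mul hm2).enorm.pow_const 2).mul (hmw.comp measurable_snd)
  rw [hswap]
  have hz : ∀ z : Fin n → ℝ, ∫⁻ u, ‖F (u + (1 - θ) • z) * F (u - θ • z)‖ₑ ^ 2 *
      ∏ i, wI I ε l L i (z i) ≤ (∏ i, (Set.Icc (-L) L).indicator (wI I ε l L i) (z i)) *
        ∫⁻ u, ‖F u‖ₑ ^ 4 := by
    intro z
    by_cases hzL : ∀ i, z i ∈ Set.Icc (-L) L
    · have e : ∏ i, (Set.Icc (-L) L).indicator (wI I ε l L i) (z i) = ∏ i, wI I ε l L i (z i) :=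
        Finset.prod_congr rfl fun i _ => Set.indicator_of_mem (hzL i) _
      have hmm : Measurable fun u : Fin n → ℝ => ‖F (u + (1 - θ) • z) * F (u - θ • z)‖ₑ ^ 2 :=
        (Measurable.mul (hF.comp (by fun_prop)) (hF.comp (by fun_prop))).enorm.pow_const 2
      rw [e, lintegral_mul_const'' _ hmm.aemeasurable, mul_comm]
      refine mul_le_mul' le_rfl ?_
      have hab : ∀ a b : ℝ≥0∞, (a * b) ^ 2 ≤ (1 / 2) * a ^ 4 + (1 / 2) * b ^ 4 := by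
        intro a b
        have h := ENNReal.young_inequality (a ^ 2) (b ^ 2) Real.HolderConjugate.two_two
        have h2 : ∀ c : ℝ≥0∞, (c ^ 2) ^ (2 : ℝ) / ENNReal.ofReal 2 = (1 / 2) * c ^ 4 := by
          intro c
          rw [ENNReal.ofReal_ofNat, ← ENNReal.rpow_natCast, ← ENNReal.rpow_natCast,
            ← ENNReal.rpow_mul, ENNReal.div_eq_inv_mul, one_div]
          norm_num
        rw [h2, h2] at h
        rwa [mul_pow]
      calc ∫⁻ u, ‖F (u + (1 - θ) • z) * F (u - θ • z)‖ₑ ^ 2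
          ≤ ∫⁻ u, ((1 / 2) * ‖F (u + (1 - θ) • z)‖ₑ ^ 4 + (1 / 2) * ‖F (u - θ • z)‖ₑ ^ 4) := by
            refine lintegral_mono fun u => ?_
            rw [enorm_mul]
            exact hab _ _
        _ = (1 / 2) * (∫⁻ u, ‖F (u + (1 - θ) • z)‖ₑ ^ 4) +
            (1 / 2) * ∫⁻ u, ‖F (u - θ • z)‖ₑ ^ 4 := by
            rw [lintegral_add_left, lintegral_const_mul, lintegral_const_mul]
            · exact ((hF.comp (by fun_prop)).enorm.pow_const 4)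
            · exact ((hF.comp (by fun_prop)).enorm.pow_const 4)
            · exact ((hF.comp (by fun_prop)).enorm.pow_const 4).const_mul _
        _ = (1 / 2) * (∫⁻ u, ‖F u‖ₑ ^ 4) + (1 / 2) * ∫⁻ u, ‖F u‖ₑ ^ 4 := by
            rw [lintegral_add_right_eq_self (fun u => ‖F u‖ₑ ^ 4),
              lintegral_sub_right_eq_self (fun u => ‖F u‖ₑ ^ 4)]
        _ = ∫⁻ u, ‖F u‖ₑ ^ 4 := by
            rw [← add_mul, one_div, ENNReal.inv_two_add_inv_two, one_mul]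
    · push Not at hzL
      obtain ⟨i, hi⟩ := hzL
      have h0 : ∀ u, ‖F (u + (1 - θ) • z) * F (u - θ • z)‖ₑ ^ 2 * ∏ i, wI I ε l L i (z i) = 0 := by
        intro u
        have h1 : F (u + (1 - θ) • z) * F (u - θ • z) = 0 := by
          by_contra hne
          have h2 := hL _ _ (left_ne_zero_of_mul hne) (right_ne_zero_of_mul hne) i
          apply hi
          have h3 : (u + (1 - θ) • z) i - (u - θ • z) i = z i := by
            simp only [Pi.add_apply, Pi.sub_apply, Pi.smul_apply, smul_eq_mul]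
            ring
          rw [h3, abs_le] at h2
          exact ⟨h2.1, h2.2⟩
        rw [h1, enorm_zero]
        ring
      simp only [h0, lintegral_zero]
      exact zero_le
  refine (lintegral_mono hz).trans (le_of_eq ?_)
  rw [lintegral_mul_const, lint_prod_dep n (fun i => (Set.Icc (-L) L).indicator (wI I ε l L i))
    fun i => (meas_wI I ε l L i).indicator measurableSet_Icc]
  · congr 1
    refine Finset.prod_congr rfl fun i _ => ?_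
    rw [lintegral_indicator measurableSet_Icc]
  · exact Finset.measurable_prod _ fun i _ =>
      ((meas_wI I ε l L i).indicator measurableSet_Icc).comp (measurable_pi_apply i)

/-- the integrals of the weights -/
lemma prod_wI (I : Finset (Fin n)) (ε L : ℝ) (hε : 0 < ε) : ∃ C : ℝ≥0∞, C < ⊤ ∧
    ∀ l : ℝ, 0 < l → ∏ i, ∫⁻ z in Set.Icc (-L) L, wI I ε l L i z ≤
      C * ENNReal.ofReal (l ^ (-(I.card * (1 - ε / 2)))) := by
  set I1 : ℝ≥0∞ := ∫⁻ z in Set.Icc (-L) L, w1 ε 1 z with hI1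
  have hIt : I1 < ⊤ := by
    rw [hI1]
    unfold w1
    rw [lintegral_const_mul' _ _ ENNReal.ofReal_ne_top]
    exact ENNReal.mul_lt_top ENNReal.ofReal_lt_top (int_abs_rpow ε L hε)
  set M : ℝ≥0∞ := I1 + ENNReal.ofReal (2 * L) * ENNReal.ofReal (2 * L) with hM
  have hMt : M < ⊤ := ENNReal.add_lt_top.2 ⟨hIt, ENNReal.mul_lt_top ENNReal.ofReal_lt_top
    ENNReal.ofReal_lt_top⟩
  refine ⟨M ^ n, ENNReal.pow_lt_top hMt, ?_⟩
  intro l hl
  have h1 : ∀ i : Fin n, ∫⁻ z in Set.Icc (-L) L, wI I ε l L i z ≤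
      M * (if i ∈ I then ENNReal.ofReal (l ^ (-1 + ε / 2)) else 1) := by
    intro i
    unfold wI
    by_cases h : i ∈ I
    · simp only [h, if_true]
      have h2 : ∫⁻ z in Set.Icc (-L) L, w1 ε l z =
          ENNReal.ofReal (l ^ (-1 + ε / 2)) * I1 := by
        rw [hI1, ← lintegral_const_mul' _ _ ENNReal.ofReal_ne_top]
        refine lintegral_congr fun z => ?_
        exact w1_scale ε _ z hl
      rw [h2, mul_comm]
      exact mul_le_mul' le_self_add le_rfl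
    · simp only [h, if_false]
      rw [setLIntegral_const, Real.volume_Icc, mul_one]
      have e : L - -L = 2 * L := by ring
      rw [e]
      exact le_add_self
  refine (Finset.prod_le_prod' fun i _ => h1 i).trans (le_of_eq ?_)
  rw [Finset.prod_mul_distrib, Finset.prod_const, Finset.card_univ, Fintype.card_fin]
  congr 1
  rw [Finset.prod_ite_mem, Finset.univ_inter, Finset.prod_const,
    ← ENNReal.ofReal_pow (by positivity), ← Real.rpow_natCast, ← Real.rpow_mul hl.le]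
  congr 2
  ring

/-- the mean estimate for a family `G` of metrics -/
def MeanG (n : ℕ) (G : (Fin n → ℝ) → (Fin n → ℝ)) (κ L : ℝ) (C : ℝ≥0∞) : Prop :=
  ∀ F : (Fin n → ℝ) → ℂ, Measurable F → Integrable F → (∃ B : ℝ, ∀ u, ‖F u‖ ≤ B) →
    (∀ u v, F u ≠ 0 → F v ≠ 0 → ∀ i, |u i - v i| ≤ L) →
    ∀ θ ∈ Set.Ioo (0 : ℝ) 1, ∀ σ : ℝ, 0 < σ →
    ∫⁻ g in box n, ∫⁻ u, ‖Hb F θ σ (G g) u‖ₑ ^ 2 ≤
      C * ENNReal.ofReal ((θ * (1 - θ) * σ) ^ (-κ)) * ∫⁻ u, ‖F u‖ₑ ^ 4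

/-- the mean over some of the coefficients -/
theorem meanG_mix (I : Finset (Fin n)) (ε L : ℝ) (hε : 0 < ε) (hε1 : ε < 1) :
    ∃ C : ℝ≥0∞, C < ⊤ ∧ ∀ g₀ : Fin n → ℝ, MeanG n (mix I g₀) (I.card * (1 - ε / 2)) L C := by
  obtain ⟨C, hC, h⟩ := prod_wI I ε L hε
  refine ⟨ENNReal.ofReal (2 * Real.exp (4 * π) ^ n) * C,
    ENNReal.mul_lt_top ENNReal.ofReal_lt_top hC, ?_⟩
  intro g₀ F hFm hF hFb hL θ hθ σ hσ
  obtain ⟨B, hB⟩ := hFb
  have hθ1 : 1 - θ ≠ 0 := by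
    have := hθ.2
    intro h
    linarith
  have hl : 0 < θ * (1 - θ) * σ := by
    have h1 := hθ.1
    have h2 : 0 < 1 - θ := by linarith [hθ.2]
    positivity
  have hmix : Measurable (mix I g₀) := (mix_cont I g₀).measurable
  have hm : Measurable fun p : (Fin n → ℝ) × (Fin n → ℝ) => ‖Hb F θ σ (mix I g₀ p.1) p.2‖ₑ ^ 2 :=
    (Measurable.comp (g := fun p : ℝ × ℝ × (Fin n → ℝ) × (Fin n → ℝ) =>
      Hb F p.1 p.2.1 p.2.2.1 p.2.2.2)
      (f := fun p : (Fin n → ℝ) × (Fin n → ℝ) => (θ, σ, mix I g₀ p.1, p.2))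
      (meas_Hb hFm) (by fun_prop)).enorm.pow_const 2
  rw [lintegral_lintegral_swap hm.aemeasurable]
  calc ∫⁻ u, ∫⁻ g in box n, ‖Hb F θ σ (mix I g₀ g) u‖ₑ ^ 2
      ≤ ∫⁻ u, ENNReal.ofReal (2 * Real.exp (4 * π) ^ n) * ∫⁻ z : Fin n → ℝ,
          ‖F (u + (1 - θ) • z) * F (u - θ • z)‖ₑ ^ 2 *
            ∏ i, wI I ε (θ * (1 - θ) * σ) L i (z i) := by
        refine lintegral_mono fun u => ?_
        refine mean_mix I g₀ ε (θ * (1 - θ) * σ) L hε hε1 hl _ (Bu_int hFm hF B hB θ hθ1 u) ?_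
        intro z hz i
        have h2 := hL _ _ (left_ne_zero_of_mul hz) (right_ne_zero_of_mul hz) i
        have h3 : (u + (1 - θ) • z) i - (u - θ • z) i = z i := by
          simp only [Pi.add_apply, Pi.sub_apply, Pi.smul_apply, smul_eq_mul]
          ring
        rwa [h3] at h2
    _ = ENNReal.ofReal (2 * Real.exp (4 * π) ^ n) * ∫⁻ u, ∫⁻ z : Fin n → ℝ,
          ‖F (u + (1 - θ) • z) * F (u - θ • z)‖ₑ ^ 2 *
            ∏ i, wI I ε (θ * (1 - θ) * σ) L i (z i) :=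
        lintegral_const_mul' _ _ ENNReal.ofReal_ne_top
    _ ≤ ENNReal.ofReal (2 * Real.exp (4 * π) ^ n) *
          ((∏ i, ∫⁻ z in Set.Icc (-L) L, wI I ε (θ * (1 - θ) * σ) L i z) *
            ∫⁻ u, ‖F u‖ₑ ^ 4) := mul_le_mul' le_rfl (supp_intI I hFm L hL ε _ θ)
    _ ≤ ENNReal.ofReal (2 * Real.exp (4 * π) ^ n) *
          ((C * ENNReal.ofReal ((θ * (1 - θ) * σ) ^ (-(I.card * (1 - ε / 2))))) *
            ∫⁻ u, ‖F u‖ₑ ^ 4) := mul_le_mul' le_rfl (mul_le_mul' (h _ hl) le_rfl)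
    _ = _ := by
        simp only [mul_assoc]

/-- the estimate for one `θ` -/
theorem JG_le (G : (Fin n → ℝ) → (Fin n → ℝ)) (hG : Measurable G)
    (hGb : ∀ g ∈ box n, G g ∈ box n) (κ L : ℝ) (C : ℝ≥0∞) (hM : MeanG n G κ L C)
    {F : (Fin n → ℝ) → ℂ} (hFm : Measurable F) (hF : Integrable F) (B : ℝ)
    (hB : ∀ u, ‖F u‖ ≤ B)
    (hL : ∀ u v, F u ≠ 0 → F v ≠ 0 → ∀ i, |u i - v i| ≤ L) (y : ℝ) (hy : 0 < y) (θ : ℝ)
    (hθ : θ ∈ Set.Ioo (0 : ℝ) 1) :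
    ∫⁻ g in box n, ∫⁻ x : Fin n → ℝ, ∫⁻ w : ℝ,
      ‖∫ σ in Set.Ioi (0 : ℝ), os σ (-w) * Gf y F θ (G g) x σ‖ₑ ^ 2 ≤
    (2 * C * ∫⁻ u, ‖F u‖ₑ ^ 4) * (ENNReal.ofReal ((θ * (1 - θ)) ^ (-κ)) *
      ∫⁻ σ in Set.Ioi (0 : ℝ), ENNReal.ofReal (σ ^ (n - κ) * Real.exp (-(4 * π * y) * σ))) := by
  set μσ : Measure ℝ := volume.restrict (Set.Ioi (0 : ℝ)) with hμσ
  have hmG : Measurable fun p : (Fin n → ℝ) × (Fin n → ℝ) × ℝ =>
      ‖Gf y F θ (G p.1) p.2.1 p.2.2‖ₑ ^ 2 :=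
    (Measurable.comp (g := fun p : ℝ × ℝ × (Fin n → ℝ) × (Fin n → ℝ) =>
      Gf y F p.1 p.2.2.1 p.2.2.2 p.2.1)
      (f := fun p : (Fin n → ℝ) × (Fin n → ℝ) × ℝ => (θ, p.2.2, G p.1, p.2.1))
      (meas_Gf y hFm) (by fun_prop)).enorm.pow_const 2
  have hmG2 : Measurable fun p : (Fin n → ℝ) × ℝ =>
      ∫⁻ x : Fin n → ℝ, ‖Gf y F θ (G p.1) x p.2‖ₑ ^ 2 := by
    refine Measurable.lintegral_prod_right' (f := fun p : ((Fin n → ℝ) × ℝ) × (Fin n → ℝ) =>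
      ‖Gf y F θ (G p.1.1) p.2 p.1.2‖ₑ ^ 2) ?_
    exact Measurable.comp (g := fun p : (Fin n → ℝ) × (Fin n → ℝ) × ℝ =>
      ‖Gf y F θ (G p.1) p.2.1 p.2.2‖ₑ ^ 2) (f := fun p : ((Fin n → ℝ) × ℝ) × (Fin n → ℝ) =>
      (p.1.1, p.2, p.1.2)) hmG (by fun_prop)
  have hb : ∀ σ : ℝ, 0 < σ → ∀ g ∈ box n, ∫⁻ x : Fin n → ℝ, ‖Gf y F θ g x σ‖ₑ ^ 2 ≤
      ENNReal.ofReal (σ ^ n * Real.exp (-(4 * π * y) * σ)) * ∫⁻ u, ‖Hb F θ σ g u‖ₑ ^ 2 := by
    intro σ hσ g hg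
    have h1 : ∀ x, ‖Gf y F θ g x σ‖ₑ ^ 2 =
        ENNReal.ofReal ((σ ^ n * Real.exp (-(2 * π * σ * y))) ^ 2) * ‖Qf F θ σ g x‖ₑ ^ 2 := by
      intro x
      unfold Gf
      rw [enorm_mul, mul_pow, ENNReal.ofReal_pow (by positivity)]
      congr 2
      rw [← ofReal_norm, Complex.norm_real, Real.norm_of_nonneg (by positivity)]
    simp only [h1]
    rw [lintegral_const_mul' _ _ ENNReal.ofReal_ne_top]
    have h2 : ∫⁻ x : Fin n → ℝ, ‖Qf F θ σ g x‖ₑ ^ 2 ≤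
        ENNReal.ofReal ((σ ^ n)⁻¹) * ∫⁻ u, ‖Hb F θ σ g u‖ₑ ^ 2 := by
      have h3 : ∀ x, Qf F θ σ g x = ∫ u, os σ (q g (x - u)) * Hb F θ σ g u := fun x =>
        prod_P F hF θ σ g x
      simp only [h3]
      refine planch_x σ hσ g (fun i => (hg i).1) _ (Hb_int hF θ σ g)
        (Hb_memLp hF B hB θ σ ?_ g)
      have := hθ.2
      intro h
      linarith
    refine (mul_le_mul' le_rfl h2).trans (le_of_eq ?_)
    rw [← mul_assoc, ← ENNReal.ofReal_mul (by positivity)]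
    congr 2
    rw [mul_pow, ← Real.exp_nat_mul]
    have e : ((2 : ℕ) : ℝ) * -(2 * π * σ * y) = -(4 * π * y) * σ := by
      push_cast
      ring
    rw [e]
    field_simp
  calc ∫⁻ g in box n, ∫⁻ x : Fin n → ℝ, ∫⁻ w : ℝ,
        ‖∫ σ in Set.Ioi (0 : ℝ), os σ (-w) * Gf y F θ (G g) x σ‖ₑ ^ 2
      = ∫⁻ g in box n, ∫⁻ x : Fin n → ℝ, 2 * ∫⁻ σ, ‖Gf y F θ (G g) x σ‖ₑ ^ 2 ∂μσ := by
        refine lintegral_congr fun g => lintegral_congr fun x => ?_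
        exact planch_w _ (Gf_int y hy hFm θ (G g) x) (Gf_memLp y hy hFm θ (G g) x)
    _ = 2 * ∫⁻ g in box n, ∫⁻ x : Fin n → ℝ, ∫⁻ σ, ‖Gf y F θ (G g) x σ‖ₑ ^ 2 ∂μσ := by
        rw [← lintegral_const_mul' _ _ (by norm_num)]
        refine lintegral_congr fun g => ?_
        rw [← lintegral_const_mul' _ _ (by norm_num)]
    _ = 2 * ∫⁻ g in box n, ∫⁻ σ, (∫⁻ x : Fin n → ℝ, ‖Gf y F θ (G g) x σ‖ₑ ^ 2) ∂μσ := by
        congr 1
        refine lintegral_congr fun g => ?_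
        refine lintegral_lintegral_swap ?_
        exact (Measurable.comp (g := fun p : (Fin n → ℝ) × (Fin n → ℝ) × ℝ =>
          ‖Gf y F θ (G p.1) p.2.1 p.2.2‖ₑ ^ 2) (f := fun p : (Fin n → ℝ) × ℝ =>
          (g, p.1, p.2)) hmG (by fun_prop)).aemeasurable
    _ = 2 * ∫⁻ σ, (∫⁻ g in box n, ∫⁻ x : Fin n → ℝ, ‖Gf y F θ (G g) x σ‖ₑ ^ 2) ∂μσ := by
        congr 1
        exact lintegral_lintegral_swap hmG2.aemeasurable
    _ ≤ 2 * ∫⁻ σ, ENNReal.ofReal (σ ^ n * Real.exp (-(4 * π * y) * σ)) *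
          (C * ENNReal.ofReal ((θ * (1 - θ) * σ) ^ (-κ)) * ∫⁻ u, ‖F u‖ₑ ^ 4) ∂μσ := by
        refine mul_le_mul' le_rfl ?_
        refine lintegral_mono_ae ?_
        filter_upwards [ae_restrict_mem measurableSet_Ioi] with σ hσ
        refine (setLIntegral_mono' measurableSet_box fun g hg => hb σ hσ (G g) (hGb g hg)).trans ?_
        rw [lintegral_const_mul' _ _ ENNReal.ofReal_ne_top]
        exact mul_le_mul' le_rfl (hM F hFm hF ⟨B, hB⟩ hL θ hθ σ hσ)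
    _ = 2 * ∫⁻ σ, (C * (∫⁻ u, ‖F u‖ₑ ^ 4) * ENNReal.ofReal ((θ * (1 - θ)) ^ (-κ))) *
          ENNReal.ofReal (σ ^ (n - κ) * Real.exp (-(4 * π * y) * σ)) ∂μσ := by
        congr 1
        refine lintegral_congr_ae ?_
        filter_upwards [ae_restrict_mem measurableSet_Ioi] with σ hσ
        have hσ' : 0 < σ := hσ
        have hθ' : 0 < θ * (1 - θ) := mul_pos hθ.1 (by linarith [hθ.2])
        have h2 : σ ^ (n - κ) * Real.exp (-(4 * π * y) * σ) =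
            (σ ^ n * Real.exp (-(4 * π * y) * σ)) * σ ^ (-κ) := by
          rw [← Real.rpow_natCast σ n, sub_eq_add_neg, Real.rpow_add hσ']
          ring
        rw [Real.mul_rpow hθ'.le hσ'.le, ENNReal.ofReal_mul (p := (θ * (1 - θ)) ^ (-κ))
          (by positivity), h2,
          ENNReal.ofReal_mul (p := σ ^ n * Real.exp (-(4 * π * y) * σ)) (by positivity)]
        generalize ENNReal.ofReal (σ ^ n * Real.exp (-(4 * π * y) * σ)) = a1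
        generalize ENNReal.ofReal ((θ * (1 - θ)) ^ (-κ)) = a3
        generalize ENNReal.ofReal (σ ^ (-κ)) = a4
        ring
    _ = _ := by
        rw [lintegral_const_mul _ (by fun_prop)]
        ring

/-- Tonelli -/
lemma VG_int (hn : 1 ≤ n) (G : (Fin n → ℝ) → (Fin n → ℝ)) (hG : Measurable G) (y : ℝ) (hy : 0 < y) {F : (Fin n → ℝ) → ℂ} (hFm : Measurable F)
    (hF : Integrable F) :
    ∫⁻ g in box n, ∫⁻ x : Fin n → ℝ, ∫⁻ w : ℝ, ‖∫ u, Ker n y w (G g) (x - u) * F u‖ₑ ^ (4 : ℝ) ≤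
      (∫⁻ θ in Set.Ioo (0 : ℝ) 1, ENNReal.ofReal ((θ * (1 - θ)) ^ (-(3 / 4) : ℝ))) *
      ∫⁻ θ in Set.Ioo (0 : ℝ) 1, ENNReal.ofReal ((θ * (1 - θ)) ^ ((n : ℝ) - 1 / 4)) *
        ∫⁻ g in box n, ∫⁻ x : Fin n → ℝ, ∫⁻ w : ℝ,
          ‖∫ σ in Set.Ioi (0 : ℝ), os σ (-w) * Gf y F θ (G g) x σ‖ₑ ^ 2 := by
  set A : ℝ≥0∞ := ∫⁻ θ in Set.Ioo (0 : ℝ) 1, ENNReal.ofReal ((θ * (1 - θ)) ^ (-(3 / 4) : ℝ))
    with hA
  have hAt : A ≠ ⊤ := wt_fin.ne
  set Φ : (Fin n → ℝ) → (Fin n → ℝ) → ℝ → ℝ → ℝ≥0∞ := fun g x w θ =>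
    ‖∫ σ in Set.Ioi (0 : ℝ), os σ (-w) * Gf y F θ (G g) x σ‖ₑ ^ 2 with hΦ
  have hΦm : Measurable fun p : (Fin n → ℝ) × (Fin n → ℝ) × ℝ × ℝ => Φ p.1 p.2.1 p.2.2.1 p.2.2.2 :=
    (Measurable.comp (g := fun p : (Fin n → ℝ) × (Fin n → ℝ) × ℝ × ℝ =>
      ∫ σ in Set.Ioi (0 : ℝ), os σ (-p.2.2.1) * Gf y F p.2.2.2 p.1 p.2.1 σ)
      (f := fun p : (Fin n → ℝ) × (Fin n → ℝ) × ℝ × ℝ => (G p.1, p.2.1, p.2.2.1, p.2.2.2))
      (meas_Wf y hFm) (by fun_prop)).enorm.pow_const 2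
  set c : ℝ → ℝ≥0∞ := fun θ => ENNReal.ofReal ((θ * (1 - θ)) ^ ((n : ℝ) - 1 / 4)) with hc
  have hcm : Measurable c := by
    rw [hc]
    fun_prop
  have hct : ∀ θ, c θ ≠ ⊤ := fun θ => ENNReal.ofReal_ne_top
  -- measurability of the partial integrals
  have hm1 : Measurable fun p : (Fin n → ℝ) × (Fin n → ℝ) × ℝ => ∫⁻ w : ℝ, Φ p.1 p.2.1 w p.2.2 := by
    refine Measurable.lintegral_prod_right' (f := fun p : ((Fin n → ℝ) × (Fin n → ℝ) × ℝ) × ℝ =>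
      Φ p.1.1 p.1.2.1 p.2 p.1.2.2) ?_
    exact Measurable.comp (g := fun p : (Fin n → ℝ) × (Fin n → ℝ) × ℝ × ℝ =>
      Φ p.1 p.2.1 p.2.2.1 p.2.2.2) (f := fun p : ((Fin n → ℝ) × (Fin n → ℝ) × ℝ) × ℝ =>
      (p.1.1, p.1.2.1, p.2, p.1.2.2)) hΦm (by fun_prop)
  have hm2 : Measurable fun p : (Fin n → ℝ) × ℝ =>
      ∫⁻ x : Fin n → ℝ, ∫⁻ w : ℝ, Φ p.1 x w p.2 := by
    refine Measurable.lintegral_prod_right' (f := fun p : ((Fin n → ℝ) × ℝ) × (Fin n → ℝ) =>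
      ∫⁻ w : ℝ, Φ p.1.1 p.2 w p.1.2) ?_
    exact Measurable.comp (g := fun p : (Fin n → ℝ) × (Fin n → ℝ) × ℝ =>
      ∫⁻ w : ℝ, Φ p.1 p.2.1 w p.2.2) (f := fun p : ((Fin n → ℝ) × ℝ) × (Fin n → ℝ) =>
      (p.1.1, p.2, p.1.2)) hm1 (by fun_prop)
  calc ∫⁻ g in box n, ∫⁻ x : Fin n → ℝ, ∫⁻ w : ℝ, ‖∫ u, Ker n y w (G g) (x - u) * F u‖ₑ ^ (4 : ℝ)
      ≤ ∫⁻ g in box n, ∫⁻ x : Fin n → ℝ, ∫⁻ w : ℝ, A * ∫⁻ θ in Set.Ioo (0 : ℝ) 1,
          c θ * Φ g x w θ :=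
        lintegral_mono fun g => lintegral_mono fun x => lintegral_mono fun w =>
          V_four hn y w hy hFm hF (G g) x
    _ = A * ∫⁻ g in box n, ∫⁻ x : Fin n → ℝ, ∫⁻ w : ℝ, ∫⁻ θ in Set.Ioo (0 : ℝ) 1,
          c θ * Φ g x w θ := by
        rw [← lintegral_const_mul' _ _ hAt]
        refine lintegral_congr fun g => ?_
        rw [← lintegral_const_mul' _ _ hAt]
        refine lintegral_congr fun x => ?_
        rw [← lintegral_const_mul' _ _ hAt]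
    _ = A * ∫⁻ g in box n, ∫⁻ x : Fin n → ℝ, ∫⁻ θ in Set.Ioo (0 : ℝ) 1,
          c θ * ∫⁻ w : ℝ, Φ g x w θ := by
        congr 1
        refine lintegral_congr fun g => lintegral_congr fun x => ?_
        rw [lintegral_lintegral_swap]
        · refine lintegral_congr fun θ => ?_
          rw [lintegral_const_mul' _ _ (hct θ)]
        · refine Measurable.aemeasurable (Measurable.mul (hcm.comp measurable_snd) ?_)
          exact Measurable.comp (g := fun p : (Fin n → ℝ) × (Fin n → ℝ) × ℝ × ℝ =>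
            Φ p.1 p.2.1 p.2.2.1 p.2.2.2) (f := fun p : ℝ × ℝ => (g, x, p.1, p.2)) hΦm
            (by fun_prop)
    _ = A * ∫⁻ g in box n, ∫⁻ θ in Set.Ioo (0 : ℝ) 1, c θ *
          ∫⁻ x : Fin n → ℝ, ∫⁻ w : ℝ, Φ g x w θ := by
        congr 1
        refine lintegral_congr fun g => ?_
        rw [lintegral_lintegral_swap]
        · refine lintegral_congr fun θ => ?_
          rw [lintegral_const_mul' _ _ (hct θ)]
        · refine Measurable.aemeasurable (Measurable.mul (hcm.comp measurable_snd) ?_)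
          exact Measurable.comp (g := fun p : (Fin n → ℝ) × (Fin n → ℝ) × ℝ =>
            ∫⁻ w : ℝ, Φ p.1 p.2.1 w p.2.2) (f := fun p : (Fin n → ℝ) × ℝ => (g, p.1, p.2)) hm1
            (by fun_prop)
    _ = A * ∫⁻ θ in Set.Ioo (0 : ℝ) 1, c θ * ∫⁻ g in box n,
          ∫⁻ x : Fin n → ℝ, ∫⁻ w : ℝ, Φ g x w θ := by
        congr 1
        rw [lintegral_lintegral_swap]
        · refine lintegral_congr fun θ => ?_
          rw [lintegral_const_mul' _ _ (hct θ)]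
        · exact Measurable.aemeasurable (Measurable.mul (hcm.comp measurable_snd) hm2)

/-- the near estimate -/
theorem nearG (hn : 1 ≤ n) (κ : ℝ) (hκ : κ ≤ n) (L : ℝ) (C : ℝ≥0∞) (hC : C < ⊤) :
    ∃ K : ℝ, 0 < K ∧ ∀ G : (Fin n → ℝ) → (Fin n → ℝ), Measurable G →
    (∀ g ∈ box n, G g ∈ box n) → MeanG n G κ L C →
    ∀ F : (Fin n → ℝ) → ℂ, Measurable F → (∃ B : ℝ, ∀ u, ‖F u‖ ≤ B) →
    (∀ u v, F u ≠ 0 → F v ≠ 0 → ∀ i, |u i - v i| ≤ L) → ∀ y : ℝ, 0 < y → y ≤ 1 →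
    ∫⁻ g in box n, ∫⁻ x : Fin n → ℝ, ∫⁻ w : ℝ,
        ‖∫ u, Ker n y w (G g) (x - u) * F u‖ₑ ^ (4 : ℝ) ≤
      ENNReal.ofReal (K * y ^ (-(n - κ + 1))) * ∫⁻ u, ‖F u‖ₑ ^ 4 := by
  set A : ℝ≥0∞ := ∫⁻ θ in Set.Ioo (0 : ℝ) 1, ENNReal.ofReal ((θ * (1 - θ)) ^ (-(3 / 4) : ℝ))
    with hA
  have hAt : A < ⊤ := wt_fin
  have hn0 : (0 : ℝ) < n := by exact_mod_cast hn
  have hκ1 : 0 < n - κ + 1 := by linarith
  set K : ℝ≥0∞ := A * (2 * C) * A with hK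
  have hKt : K < ⊤ := ENNReal.mul_lt_top (ENNReal.mul_lt_top hAt (ENNReal.mul_lt_top
    (by norm_num) hC)) hAt
  refine ⟨(K.toReal + 1) * ((4 * π) ^ (-(n - κ + 1)) * Real.Gamma (n - κ + 1)), ?_, ?_⟩
  · have : 0 < Real.Gamma (n - κ + 1) := Real.Gamma_pos_of_pos hκ1
    have := ENNReal.toReal_nonneg (a := K)
    positivity
  intro G hG hGb hM F hFm hFb hFL y hy hy1
  obtain ⟨B, hB⟩ := hFb
  have hF := int_of_supp hFm B hB L hFL
  refine (VG_int hn G hG y hy hFm hF).trans ?_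
  rw [← hA]
  set N : ℝ≥0∞ := ∫⁻ u, ‖F u‖ₑ ^ 4 with hN
  set S : ℝ≥0∞ := ∫⁻ σ in Set.Ioi (0 : ℝ),
    ENNReal.ofReal (σ ^ (n - κ) * Real.exp (-(4 * π * y) * σ)) with hS
  have hSe : S = ENNReal.ofReal ((4 * π) ^ (-(n - κ + 1)) * Real.Gamma (n - κ + 1) *
      y ^ (-(n - κ + 1))) := by
    have h1 := Real.integral_rpow_mul_exp_neg_mul_Ioi (a := n - κ + 1) (r := 4 * π * y)
      hκ1 (by positivity)
    rw [hS, ← ofReal_integral_eq_lintegral_ofReal]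
    · congr 1
      rw [add_sub_cancel_right] at h1
      simp only [neg_mul]
      rw [h1, one_div, Real.inv_rpow (by positivity), ← Real.rpow_neg (by positivity),
        Real.mul_rpow (by positivity) hy.le]
      ring
    · exact int_rpow_exp _ _ (by linarith) (by positivity)
    · filter_upwards [ae_restrict_mem measurableSet_Ioi] with σ hσ
      have : 0 < σ := hσ
      positivity
  have hb : ∫⁻ θ in Set.Ioo (0 : ℝ) 1, ENNReal.ofReal ((θ * (1 - θ)) ^ ((n : ℝ) - 1 / 4)) *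
      ∫⁻ g in box n, ∫⁻ x : Fin n → ℝ, ∫⁻ w : ℝ,
        ‖∫ σ in Set.Ioi (0 : ℝ), os σ (-w) * Gf y F θ (G g) x σ‖ₑ ^ 2 ≤
      ∫⁻ θ in Set.Ioo (0 : ℝ) 1, ENNReal.ofReal ((θ * (1 - θ)) ^ (-(3 / 4) : ℝ)) *
        (2 * C * N * S) := by
    refine setLIntegral_mono' measurableSet_Ioo fun θ hθ => ?_
    refine (mul_le_mul' le_rfl (JG_le G hG hGb κ L C hM hFm hF B hB hFL y hy θ hθ)).trans ?_
    rw [← hN, ← hS]
    have h0 : 0 < θ * (1 - θ) := mul_pos hθ.1 (by linarith [hθ.2])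
    have h1 : θ * (1 - θ) ≤ 1 := by nlinarith [hθ.1, hθ.2]
    have h2 : ENNReal.ofReal ((θ * (1 - θ)) ^ ((n : ℝ) - 1 / 4)) *
        ENNReal.ofReal ((θ * (1 - θ)) ^ (-κ)) ≤
        ENNReal.ofReal ((θ * (1 - θ)) ^ (-(3 / 4) : ℝ)) := by
      rw [← ENNReal.ofReal_mul (by positivity), ← Real.rpow_add h0]
      exact ENNReal.ofReal_le_ofReal (Real.rpow_le_rpow_of_exponent_ge h0 h1 (by linarith))
    calc ENNReal.ofReal ((θ * (1 - θ)) ^ ((n : ℝ) - 1 / 4)) *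
          (2 * C * N * (ENNReal.ofReal ((θ * (1 - θ)) ^ (-κ)) * S))
        = (ENNReal.ofReal ((θ * (1 - θ)) ^ ((n : ℝ) - 1 / 4)) *
          ENNReal.ofReal ((θ * (1 - θ)) ^ (-κ))) * (2 * C * N * S) := by
          generalize ENNReal.ofReal ((θ * (1 - θ)) ^ ((n : ℝ) - 1 / 4)) = a1
          generalize ENNReal.ofReal ((θ * (1 - θ)) ^ (-κ)) = a2
          ring
      _ ≤ _ := mul_le_mul' h2 le_rfl
  refine (mul_le_mul' le_rfl hb).trans ?_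
  rw [lintegral_mul_const _ (by fun_prop), ← hA]
  calc A * (A * (2 * C * N * S))
      = K * S * N := by
        rw [hK]
        ring
    _ ≤ ENNReal.ofReal (K.toReal + 1) * S * N := by
        refine mul_le_mul' (mul_le_mul' ?_ le_rfl) le_rfl
        rw [← ENNReal.ofReal_toReal hKt.ne, ENNReal.toReal_ofReal ENNReal.toReal_nonneg]
        exact ENNReal.ofReal_le_ofReal (by linarith)
    _ = _ := by
        rw [hSe, ← ENNReal.ofReal_mul (by positivity)]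
        congr 2
        ring

end Pool.Agent.T9h44.LS5
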