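import Pool.Agent.T9h44.LS5.C2
import Pool.Agent.T9h44.LS5.Stm3
import Pool.Agent.T9h44.LS4.R3

/-!
# Local smoothing in the mean over dilations (helper44): rough functions
-/

set_option autoImplicit false

namespace Pool.Agent.T9h44.LS5

open MeasureTheory Real Pool.Agent.T9h82.LS Pool.Agent.T9h44.LS4 Pool.Agent.T9h19.LS
open scoped ENNReal

variable {n : ℕ}

/-- the local estimate -/
lemma near_aG (hn : 1 ≤ n) (κ : ℝ) (hκ : κ ≤ n) (C : ℝ≥0∞) (hC : C < ⊤) : ∃ K : ℝ, 0 < K ∧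
    ∀ G : (Fin n → ℝ) → (Fin n → ℝ), Measurable G →
    (∀ g ∈ box n, G g ∈ box n) → MeanG n G κ 10 C →
    ∀ F : (Fin n → ℝ) → ℂ, Measurable F → (∃ B : ℝ, ∀ u, ‖F u‖ ≤ B) →
    ∀ y : ℝ, 0 < y → y ≤ 1 → ∀ a : Fin n → ℝ,
    ∫⁻ g in box n, ∫⁻ t in Set.Icc (1 : ℝ) 2, ∫⁻ x, ‖Vt y (loc F a) (G g) t x‖ₑ ^ 4 ≤
      ENNReal.ofReal (K * y ^ (-(n - κ + 1))) * ∫⁻ u, ‖loc F a u‖ₑ ^ 4 := by
  obtain ⟨K, hK, h⟩ := nearG hn κ hκ 10 C hC
  refine ⟨K, hK, ?_⟩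
  intro G hG hGb hM F hFm hFb y hy hy1 a
  obtain ⟨B, hB⟩ := hFb
  have hlm : Measurable (loc F a) := meas_loc1 hFm a
  have h1 := h G hG hGb hM (loc F a) hlm ⟨B, fun u => by
    unfold loc
    split_ifs
    · exact hB u
    · rw [norm_zero]
      exact (norm_nonneg _).trans (hB u)⟩ (by
    intro u v hu hv i
    have hu' : ‖u - a‖ ≤ 5 := by
      by_contra hne
      exact hu (by unfold loc; rw [if_neg hne])
    have hv' : ‖v - a‖ ≤ 5 := by
      by_contra hne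
      exact hv (by unfold loc; rw [if_neg hne])
    have h2 : ‖(u - v) i‖ ≤ ‖u - v‖ := norm_le_pi_norm (u - v) i
    rw [Pi.sub_apply, Real.norm_eq_abs] at h2
    have h3 : ‖u - v‖ ≤ ‖u - a‖ + ‖v - a‖ := by
      have : u - v = (u - a) - (v - a) := by abel
      rw [this]
      exact norm_sub_le _ _
    linarith) y hy hy1
  have e4 : ∀ c : ℝ≥0∞, c ^ (4 : ℝ) = c ^ 4 := fun c => by
    rw [← ENNReal.rpow_natCast]
    norm_num
  simp only [e4] at h1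
  refine le_trans ?_ h1
  refine lintegral_mono fun g => ?_
  have hm : Measurable fun p : ℝ × (Fin n → ℝ) => ‖Vt y (loc F a) (G g) p.1 p.2‖ₑ ^ 4 :=
    (Measurable.comp (g := fun p : (Fin n → ℝ) × ℝ × (Fin n → ℝ) =>
      Vt y (loc F a) p.1 p.2.1 p.2.2) (f := fun p : ℝ × (Fin n → ℝ) => (G g, p.1, p.2))
      (meas_Vt y hlm) (by fun_prop)).enorm.pow_const 4
  rw [lintegral_lintegral_swap hm.aemeasurable]
  refine lintegral_mono fun x => ?_
  exact lint_time y fun w => ‖∫ u, Ker n y w (G g) (x - u) * loc F a u‖ₑ ^ 4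

/-- the estimate with the exponent `4` -/
theorem rough4G (hn : 1 ≤ n) (κ : ℝ) (hκ : κ ≤ n) (C₀ : ℝ≥0∞) (hC₀ : C₀ < ⊤) :
    ∃ C : ℝ, 0 < C ∧ ∀ G : (Fin n → ℝ) → (Fin n → ℝ), Measurable G →
    (∀ g ∈ box n, G g ∈ box n) → MeanG n G κ 10 C₀ →
    ∀ F : (Fin n → ℝ) → ℂ, Measurable F → Integrable F → (∃ B : ℝ, ∀ u, ‖F u‖ ≤ B) →
    ∀ y : ℝ, 0 < y → y ≤ 1 →
    ∫⁻ g in box n, ∫⁻ t in Set.Icc (1 : ℝ) 2, ∫⁻ x, ‖Vt y F (G g) t x‖ₑ ^ 4 ≤
      ENNReal.ofReal (C * y ^ (-(n - κ + 1)) + C) * ∫⁻ u, ‖F u‖ₑ ^ 4 := by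
  obtain ⟨C, hC, h⟩ := near_aG hn κ hκ C₀ hC₀
  set Kf : ℝ := ∫ z : Fin n → ℝ, kf n z with hKf
  have hKf0 : 0 ≤ Kf := integral_nonneg fun z => kf_nonneg z
  refine ⟨16 * C * 10 ^ n + 16 * Kf ^ 4 + 1, by positivity, ?_⟩
  intro G hG hGb hM F hFm hFi hFb y hy hy1
  have hYm := meas_Yf hFm
  set N : ℝ≥0∞ := ∫⁻ u, ‖F u‖ₑ ^ 4 with hN'
  have hY : ∫⁻ x, Yf F x ^ 4 ≤ ENNReal.ofReal (Kf ^ 4) * N := by
    refine (young4 (fun z => ENNReal.ofReal (kf n z)) (fun u => ‖F u‖ₑ) kf_meas.ennreal_ofReal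
      hFm.enorm).trans (le_of_eq ?_)
    rw [← ofReal_integral_eq_lintegral_ofReal kf_int
      (Filter.Eventually.of_forall fun z => kf_nonneg z), ENNReal.ofReal_pow hKf0]
  set Φ : (Fin n → ℝ) → (Fin n → ℝ) × ℝ × (Fin n → ℝ) → ℝ≥0∞ := fun a p =>
    ‖Vt y (loc F a) (G p.1) p.2.1 p.2.2‖ₑ ^ 4 with hΦ
  have hΦm : Measurable fun p : ((Fin n → ℝ) × ℝ × (Fin n → ℝ)) × (Fin n → ℝ) => Φ p.2 p.1 :=
    (Measurable.comp (g := fun p : (Fin n → ℝ) × (Fin n → ℝ) × ℝ × (Fin n → ℝ) =>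
      Vt y (loc F p.1) p.2.1 p.2.2.1 p.2.2.2)
      (f := fun p : ((Fin n → ℝ) × ℝ × (Fin n → ℝ)) × (Fin n → ℝ) =>
      (p.2, G p.1.1, p.1.2.1, p.1.2.2)) (meas_Vloc y hFm) (by fun_prop)).enorm.pow_const 4
  have hA : ∫⁻ g in box n, ∫⁻ t in Set.Icc (1 : ℝ) 2, ∫⁻ x, ∫⁻ a, Φ a (g, t, x) ≤
      ENNReal.ofReal (C * y ^ (-(n - κ + 1))) * (ENNReal.ofReal (10 ^ n) * N) := by
    rw [iter' (fun p => ∫⁻ a, Φ a p) (Measurable.lintegral_prod_right' hΦm),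
      lintegral_lintegral_swap hΦm.aemeasurable]
    calc ∫⁻ a, ∫⁻ p, Φ a p ∂((volume.restrict (box n)).prod
          ((volume.restrict (Set.Icc (1 : ℝ) 2)).prod (volume : Measure (Fin n → ℝ))))
        ≤ ∫⁻ a, ENNReal.ofReal (C * y ^ (-(n - κ + 1))) * ∫⁻ u, ‖loc F a u‖ₑ ^ 4 := by
          refine lintegral_mono fun a => ?_
          rw [← iter' (fun p => Φ a p) (Measurable.comp
            (g := fun p : ((Fin n → ℝ) × ℝ × (Fin n → ℝ)) × (Fin n → ℝ) => Φ p.2 p.1)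
            (f := fun p : (Fin n → ℝ) × ℝ × (Fin n → ℝ) => (p, a)) hΦm (by fun_prop))]
          exact h G hG hGb hM F hFm hFb y hy hy1 a
      _ = ENNReal.ofReal (C * y ^ (-(n - κ + 1))) * ∫⁻ a, ∫⁻ u, ‖loc F a u‖ₑ ^ 4 :=
          lintegral_const_mul' _ _ ENNReal.ofReal_ne_top
      _ = _ := by
          congr 1
          rw [lintegral_lintegral_swap ((meas_loc hFm).enorm.pow_const 4).aemeasurable, hN',
            ← lintegral_const_mul' _ _ ENNReal.ofReal_ne_top]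
          refine lintegral_congr fun u => ?_
          have e : ∀ a : Fin n → ℝ, ‖loc F a u‖ₑ ^ 4 =
              if ‖u - a‖ ≤ 5 then ‖F u‖ₑ ^ 4 else 0 := by
            intro a
            unfold loc
            split_ifs
            · rfl
            · rw [enorm_zero]
              norm_num
          simp only [e]
          rw [ball_int u 5 (by norm_num)]
          norm_num
  have hAm : Measurable fun p : (Fin n → ℝ) × ℝ => ∫⁻ x, ∫⁻ a, Φ a (p.1, p.2, x) := by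
    refine Measurable.lintegral_prod_right' (f := fun p : ((Fin n → ℝ) × ℝ) × (Fin n → ℝ) =>
      ∫⁻ a, Φ a (p.1.1, p.1.2, p.2)) ?_
    exact Measurable.comp (g := fun p : (Fin n → ℝ) × ℝ × (Fin n → ℝ) => ∫⁻ a, Φ a p)
      (f := fun p : ((Fin n → ℝ) × ℝ) × (Fin n → ℝ) => (p.1.1, p.1.2, p.2))
      (Measurable.lintegral_prod_right' hΦm) (by fun_prop)
  calc ∫⁻ g in box n, ∫⁻ t in Set.Icc (1 : ℝ) 2, ∫⁻ x, ‖Vt y F (G g) t x‖ₑ ^ 4
      ≤ ∫⁻ g in box n, ∫⁻ t in Set.Icc (1 : ℝ) 2, (16 * (∫⁻ x, ∫⁻ a, Φ a (g, t, x)) +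
          16 * ∫⁻ x, Yf F x ^ 4) := by
        refine setLIntegral_mono' measurableSet_box fun g hg => ?_
        refine setLIntegral_mono' measurableSet_Icc fun t ht => ?_
        exact loc_x hn y hy hFm hFi (G g) (hGb g hg) t ht
    _ = 16 * (∫⁻ g in box n, ∫⁻ t in Set.Icc (1 : ℝ) 2, ∫⁻ x, ∫⁻ a, Φ a (g, t, x)) +
          16 * ∫⁻ x, Yf F x ^ 4 := by
        have h1 : ∀ g : Fin n → ℝ, ∫⁻ t in Set.Icc (1 : ℝ) 2,
            (16 * (∫⁻ x, ∫⁻ a, Φ a (g, t, x)) + 16 * ∫⁻ x, Yf F x ^ 4) =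
            16 * (∫⁻ t in Set.Icc (1 : ℝ) 2, ∫⁻ x, ∫⁻ a, Φ a (g, t, x)) +
              16 * ∫⁻ x, Yf F x ^ 4 := by
          intro g
          rw [lintegral_add_right _ measurable_const, lintegral_const_mul' _ _ (by norm_num),
            setLIntegral_const, Real.volume_Icc]
          norm_num
        simp only [h1]
        rw [lintegral_add_right _ measurable_const, lintegral_const_mul' _ _ (by norm_num),
          setLIntegral_const, vol_box', mul_one]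
    _ ≤ 16 * (ENNReal.ofReal (C * y ^ (-(n - κ + 1))) * (ENNReal.ofReal (10 ^ n) * N)) +
          16 * (ENNReal.ofReal (Kf ^ 4) * N) :=
        add_le_add (mul_le_mul' le_rfl hA) (mul_le_mul' le_rfl hY)
    _ = ENNReal.ofReal (16 * (C * y ^ (-(n - κ + 1))) * 10 ^ n + 16 * Kf ^ 4) * N := by
        have h16 : ENNReal.ofReal 16 = 16 := by rw [ENNReal.ofReal_ofNat]
        rw [ENNReal.ofReal_add (by positivity) (by positivity), ENNReal.ofReal_mul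
          (p := 16 * (C * y ^ (-(n - κ + 1)))) (q := 10 ^ n) (by positivity),
          ENNReal.ofReal_mul (p := (16 : ℝ)) (q := C * y ^ (-(n - κ + 1))) (by norm_num),
          ENNReal.ofReal_mul (p := (16 : ℝ)) (q := Kf ^ 4) (by norm_num), h16]
        ring
    _ ≤ _ := by
        refine mul_le_mul' (ENNReal.ofReal_le_ofReal ?_) le_rfl
        have h1 : 0 ≤ y ^ (-(n - κ + 1)) := by positivity
        have h2 : 0 ≤ Kf ^ 4 := by positivity
        have h3 : (0 : ℝ) ≤ 10 ^ n := by positivity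
        have h4 : 0 ≤ C * 10 ^ n := by positivity
        nlinarith [mul_nonneg h1 h2, mul_nonneg h4 h1]

/-- the estimate for rough functions, the coefficients with an index in `I` vary -/
def RoughI (n : ℕ) (I : Finset (Fin n)) (p e : ℝ) : Prop :=
  ∃ C : ℝ, 0 < C ∧ ∀ g₀ ∈ box n, ∀ F : (Fin n → ℝ) → ℂ, Measurable F → Integrable F →
    (∃ B : ℝ, ∀ u, ‖F u‖ ≤ B) → ∀ y : ℝ, 0 < y → y ≤ 1 →
    ∫⁻ g in box n, ∫⁻ t in Set.Icc (1 : ℝ) 2, ∫⁻ x : Fin n → ℝ,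
        ‖∫ u, Ker n y (t ^ 2 - y ^ 2 / t ^ 2) (mix I g₀ g) (x - u) * F u‖ₑ ^ p ≤
      ENNReal.ofReal (C * y ^ (-e)) * ∫⁻ u, ‖F u‖ₑ ^ p

lemma four_I (hn : 1 ≤ n) (I : Finset (Fin n)) (ε : ℝ) (hε : 0 < ε) :
    RoughI n I 4 (n - I.card + 1 + ε) := by
  have hn0 : (0 : ℝ) < n := by exact_mod_cast hn
  have hc : (I.card : ℝ) ≤ n := by
    have := Finset.card_le_univ I
    rw [Fintype.card_fin] at this
    exact_mod_cast this
  set ε' : ℝ := min (1 / 2) (ε / n) with hε'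
  have h1 : 0 < ε' := lt_min (by norm_num) (by positivity)
  have h2 : ε' < 1 := lt_of_le_of_lt (min_le_left _ _) (by norm_num)
  have hc0 : (0 : ℝ) ≤ I.card := Nat.cast_nonneg _
  have h3 : I.card * (ε' / 2) ≤ ε := by
    have : ε' ≤ ε / n := min_le_right _ _
    rw [le_div_iff₀ hn0] at this
    nlinarith
  obtain ⟨C₀, hC₀, hM⟩ := meanG_mix I ε' 10 h1 h2
  have hκ : (I.card : ℝ) * (1 - ε' / 2) ≤ n := by nlinarith
  obtain ⟨C, hC, h⟩ := rough4G hn (I.card * (1 - ε' / 2)) hκ C₀ hC₀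
  refine ⟨2 * C, by positivity, ?_⟩
  intro g₀ hg₀ F hFm hFi hFb y hy hy1
  have e4 : ∀ c : ℝ≥0∞, c ^ (4 : ℝ) = c ^ 4 := fun c => by
    rw [← ENNReal.rpow_natCast]
    norm_num
  simp only [e4]
  refine (h (mix I g₀) (mix_cont I g₀).measurable (fun g hg => mix_mem I g₀ g hg₀ hg) (hM g₀)
    F hFm hFi hFb y hy hy1).trans (mul_le_mul' (ENNReal.ofReal_le_ofReal ?_) le_rfl)
  have h4 : y ^ (-(n - I.card * (1 - ε' / 2) + 1)) ≤ y ^ (-(n - I.card + 1 + ε)) :=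
    Real.rpow_le_rpow_of_exponent_ge hy hy1 (by linarith)
  have h5 : 1 ≤ y ^ (-(n - I.card + 1 + ε)) :=
    Real.one_le_rpow_of_pos_of_le_one_of_nonpos hy hy1 (by linarith)
  nlinarith

lemma l2_I (hn : 1 ≤ n) (I : Finset (Fin n)) (g₀ : Fin n → ℝ) (hg₀ : g₀ ∈ box n) (y : ℝ)
    (hy : 0 < y) (F : (Fin n → ℝ) → ℂ) (hFm : Measurable F)
    (hFi : Integrable F) (hFb : ∃ B : ℝ, ∀ u, ‖F u‖ ≤ B) :
    ∫⁻ g in box n, ∫⁻ t in Set.Icc (1 : ℝ) 2, ∫⁻ x, ‖Vt y F (mix I g₀ g) t x‖ₑ ^ (2 : ℝ) ≤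
      ∫⁻ u, ‖F u‖ₑ ^ (2 : ℝ) := by
  calc ∫⁻ g in box n, ∫⁻ t in Set.Icc (1 : ℝ) 2, ∫⁻ x, ‖Vt y F (mix I g₀ g) t x‖ₑ ^ (2 : ℝ)
      ≤ ∫⁻ g in box n, ∫⁻ t in Set.Icc (1 : ℝ) 2, ∫⁻ u, ‖F u‖ₑ ^ (2 : ℝ) := by
        refine setLIntegral_mono' measurableSet_box fun g hg => ?_
        refine setLIntegral_mono' measurableSet_Icc fun t ht => ?_
        exact l2 n hn F hFm hFi hFb y t hy ht.1 _ fun i => (mix_mem I g₀ g hg₀ hg i).1
    _ = _ := by
        rw [setLIntegral_const, setLIntegral_const, vol_box', Real.volume_Icc]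
        norm_num

lemma meas_VI (I : Finset (Fin n)) (g₀ : Fin n → ℝ) (y : ℝ) {F : (Fin n → ℝ) → ℂ}
    (hF : Measurable F) :
    Measurable fun p : (Fin n → ℝ) × ℝ × (Fin n → ℝ) => Vt y F (mix I g₀ p.1) p.2.1 p.2.2 := by
  have hmix : Measurable (mix I g₀) := (mix_cont I g₀).measurable
  exact Measurable.comp (g := fun p : (Fin n → ℝ) × ℝ × (Fin n → ℝ) => Vt y F p.1 p.2.1 p.2.2)
    (f := fun p : (Fin n → ℝ) × ℝ × (Fin n → ℝ) => (mix I g₀ p.1, p.2.1, p.2.2))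
    (meas_Vt y hF) (by fun_prop)

lemma Vt_add (y : ℝ) (hy : 0 < y) {F G : (Fin n → ℝ) → ℂ} (hF : Integrable F)
    (hG : Integrable G) (g : Fin n → ℝ) (t : ℝ) (x : Fin n → ℝ) :
    Vt y (F + G) g t x = Vt y F g t x + Vt y G g t x := by
  unfold Vt
  rw [← integral_add (kerF_int y _ hy g x hF) (kerF_int y _ hy g x hG)]
  refine integral_congr_ae (Filter.Eventually.of_forall fun u => ?_)
  simp only [Pi.add_apply]
  ring

/-- the exponents between `2` and `4` -/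
theorem rough_lo (hn : 1 ≤ n) (I : Finset (Fin n)) (p : ℝ) (hp2 : 2 ≤ p) (hp4 : p ≤ 4) (ε : ℝ)
    (hε : 0 < ε) : RoughI n I p ((n - I.card + 1) * ((p - 2) / 2) + ε) := by
  have hc : (I.card : ℝ) ≤ n := by
    have := Finset.card_le_univ I
    rw [Fintype.card_fin] at this
    exact_mod_cast this
  obtain ⟨C4, hC4, h4⟩ := four_I hn I ε hε
  rcases hp2.eq_or_lt with rfl | hp2'
  · refine ⟨1, one_pos, ?_⟩
    intro g₀ hg₀ F hFm hFi hFb y hy hy1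
    refine (l2_I hn I g₀ hg₀ y hy F hFm hFi hFb).trans ?_
    refine le_mul_of_one_le_left zero_le ?_
    rw [← ENNReal.ofReal_one]
    refine ENNReal.ofReal_le_ofReal ?_
    rw [one_mul]
    exact Real.one_le_rpow_of_pos_of_le_one_of_nonpos hy hy1 (by norm_num; exact hε.le)
  rcases hp4.eq_or_lt with rfl | hp4'
  · refine ⟨C4, hC4, ?_⟩
    intro g₀ hg₀ F hFm hFi hFb y hy hy1
    refine (h4 g₀ hg₀ F hFm hFi hFb y hy hy1).trans (le_of_eq ?_)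
    norm_num
  obtain ⟨C0, hC0, hI⟩ := interp_volume hp2' hp4'
  refine ⟨C0 * C4 ^ ((p - 2) / 2), by positivity, ?_⟩
  intro g₀ hg₀ F hFm hFi hFb y hy hy1
  set μ : Measure ((Fin n → ℝ) × ℝ × (Fin n → ℝ)) := (volume.restrict (box n)).prod
    ((volume.restrict (Set.Icc (1 : ℝ) 2)).prod (volume : Measure (Fin n → ℝ))) with hμ
  have hm : ∀ (F : (Fin n → ℝ) → ℂ), Measurable F → ∀ r : ℝ,
      Measurable fun q : (Fin n → ℝ) × ℝ × (Fin n → ℝ) =>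
        ‖Vt y F (mix I g₀ q.1) q.2.1 q.2.2‖ₑ ^ r :=
    fun F hF r => (meas_VI I g₀ y hF).enorm.pow_const r
  have h5 := hI ((Fin n → ℝ) × ℝ × (Fin n → ℝ)) μ n
    (fun F q => Vt y F (mix I g₀ q.1) q.2.1 q.2.2) 1
    (ENNReal.ofReal (C4 * y ^ (-(n - I.card + 1 + ε))))
    (fun F hF _ _ => (meas_VI I g₀ y hF).aestronglyMeasurable)
    (fun F hF hi hb => by
      rw [hμ, ← iter' _ (hm F hF 2), one_mul]
      exact l2_I hn I g₀ hg₀ y hy F hF hi hb)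
    (fun F hF hi hb => by
      rw [hμ, ← iter' _ (hm F hF 4)]
      exact h4 g₀ hg₀ F hF hi hb y hy hy1)
    (fun F G hF hFi' _ hG hGi' _ q => by
      rw [Vt_add y hy hFi' hGi']
      exact norm_add_le _ _)
    F hFm hFi hFb
  rw [hμ, ← iter' _ (hm F hFm p)] at h5
  refine h5.trans ?_
  rw [ENNReal.one_rpow, mul_one]
  refine mul_le_mul' ?_ le_rfl
  rw [ENNReal.ofReal_rpow_of_nonneg (by positivity) (by linarith), ← ENNReal.ofReal_mul hC0.le]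
  refine ENNReal.ofReal_le_ofReal ?_
  rw [Real.mul_rpow hC4.le (by positivity), ← Real.rpow_mul hy.le, mul_assoc]
  refine mul_le_mul_of_nonneg_left (mul_le_mul_of_nonneg_left ?_ (by positivity)) hC0.le
  refine Real.rpow_le_rpow_of_exponent_ge hy hy1 ?_
  nlinarith

/-- the exponents above `4` -/
theorem rough_hi (hn : 1 ≤ n) (hK : S_KL1 n) (I : Finset (Fin n)) (p : ℝ) (hp4 : 4 < p)
    (hI : S_INF p) (ε : ℝ) (hε : 0 < ε) :
    RoughI n I p (n - I.card + 1 + (p - 4) * ((n - 1) / 2) + ε) := by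
  have hp0 : 0 < p - 4 := by linarith
  obtain ⟨C4, hC4, h4⟩ := four_I hn I (ε / 2) (by positivity)
  obtain ⟨C1, hC1, h1⟩ := hK (ε / (2 * (p - 4))) (by positivity)
  obtain ⟨C0, hC0, hI⟩ := hI
  refine ⟨C0 * C1 ^ (p - 4) * C4, by positivity, ?_⟩
  intro g₀ hg₀ F hFm hFi hFb y hy hy1
  set μ : Measure ((Fin n → ℝ) × ℝ × (Fin n → ℝ)) := (volume.restrict (box n)).prod
    ((volume.restrict (Set.Icc (1 : ℝ) 2)).prod (volume : Measure (Fin n → ℝ))) with hμ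
  have hm : ∀ (F : (Fin n → ℝ) → ℂ), Measurable F → ∀ r : ℝ,
      Measurable fun q : (Fin n → ℝ) × ℝ × (Fin n → ℝ) =>
        ‖Vt y F (mix I g₀ q.1) q.2.1 q.2.2‖ₑ ^ r :=
    fun F hF r => (meas_VI I g₀ y hF).enorm.pow_const r
  set Ai : ℝ := C1 * y ^ (-(((n : ℝ) - 1) / 2 + ε / (2 * (p - 4)))) with hAi
  have hAi0 : 0 < Ai := by positivity
  have hae : ∀ᵐ q ∂μ, q.1 ∈ box n ∧ q.2.1 ∈ Set.Icc (1 : ℝ) 2 := by
    have e : μ = ((volume : Measure (Fin n → ℝ)).prod ((volume : Measure ℝ).prod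
        (volume : Measure (Fin n → ℝ)))).restrict
        (box n ×ˢ (Set.Icc (1 : ℝ) 2 ×ˢ (Set.univ : Set (Fin n → ℝ)))) := by
      rw [hμ, ← Measure.prod_restrict, ← Measure.prod_restrict, Measure.restrict_univ]
    rw [e]
    filter_upwards [ae_restrict_mem (measurableSet_box.prod
      (measurableSet_Icc.prod MeasurableSet.univ))] with q hq
    exact ⟨hq.1, hq.2.1⟩
  have h5 := hI ((Fin n → ℝ) × ℝ × (Fin n → ℝ)) μ n
    (fun F q => Vt y F (mix I g₀ q.1) q.2.1 q.2.2)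
    (ENNReal.ofReal (C4 * y ^ (-(n - I.card + 1 + ε / 2)))) Ai hAi0
    (fun F hF _ _ => (meas_VI I g₀ y hF).aestronglyMeasurable)
    (fun F hF hi hb => by
      rw [hμ, ← iter' _ (hm F hF 4)]
      exact h4 g₀ hg₀ F hF hi hb y hy hy1)
    (fun F hF hi B hB => by
      filter_upwards [hae] with q hq
      have hmx := mix_mem I g₀ q.1 hg₀ hq.1
      have h6 := h1 _ hmx y q.2.1 hy hy1 hq.2
      have hB0 : 0 ≤ B := (norm_nonneg _).trans (hB 0)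
      have h7 : ‖Vt y F (mix I g₀ q.1) q.2.1 q.2.2‖ₑ ≤ ENNReal.ofReal (Ai * B) := by
        unfold Vt
        calc ‖∫ u, Ker n y (q.2.1 ^ 2 - y ^ 2 / q.2.1 ^ 2) (mix I g₀ q.1) (q.2.2 - u) * F u‖ₑ
            ≤ ∫⁻ u, ‖Ker n y (q.2.1 ^ 2 - y ^ 2 / q.2.1 ^ 2) (mix I g₀ q.1) (q.2.2 - u) *
                F u‖ₑ := enorm_integral_le_lintegral_enorm _
          _ ≤ ∫⁻ u, ‖Ker n y (q.2.1 ^ 2 - y ^ 2 / q.2.1 ^ 2) (mix I g₀ q.1) (q.2.2 - u)‖ₑ *
                ENNReal.ofReal B := by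
              refine lintegral_mono fun u => ?_
              simp only [enorm_mul]
              refine mul_le_mul' le_rfl ?_
              rw [← ofReal_norm]
              exact ENNReal.ofReal_le_ofReal (hB u)
          _ = (∫⁻ z, ‖Ker n y (q.2.1 ^ 2 - y ^ 2 / q.2.1 ^ 2) (mix I g₀ q.1) z‖ₑ) *
                ENNReal.ofReal B := by
              rw [lintegral_mul_const' _ _ ENNReal.ofReal_ne_top]
              congr 1
              exact lintegral_sub_left_eq_self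
                (fun z => ‖Ker n y (q.2.1 ^ 2 - y ^ 2 / q.2.1 ^ 2) (mix I g₀ q.1) z‖ₑ) _
          _ ≤ ENNReal.ofReal Ai * ENNReal.ofReal B := mul_le_mul' h6 le_rfl
          _ = _ := (ENNReal.ofReal_mul hAi0.le).symm
      rw [← ofReal_norm] at h7
      exact (ENNReal.ofReal_le_ofReal_iff (by positivity)).1 h7)
    (fun F G hF hFi' _ hG hGi' _ q => by
      rw [Vt_add y hy hFi' hGi']
      exact norm_add_le _ _)
    F hFm hFi hFb
  rw [hμ, ← iter' _ (hm F hFm p)] at h5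
  refine h5.trans ?_
  refine mul_le_mul' ?_ le_rfl
  rw [← ENNReal.ofReal_mul (by positivity)]
  refine ENNReal.ofReal_le_ofReal (le_of_eq ?_)
  rw [hAi, Real.mul_rpow hC1.le (by positivity), ← Real.rpow_mul hy.le]
  have e1 : y ^ (-(n - I.card + 1 + (p - 4) * (((n : ℝ) - 1) / 2) + ε)) =
      y ^ (-(((n : ℝ) - 1) / 2 + ε / (2 * (p - 4))) * (p - 4)) *
        y ^ (-((n : ℝ) - I.card + 1 + ε / 2)) := by
    rw [← Real.rpow_add hy]
    congr 1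
    field_simp
    ring
  rw [e1]
  ring

end Pool.Agent.T9h44.LS5
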