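import Pool.Agent.T9h44.LS5.C3
import Pool.Agent.T9h44.LS4.AS5

/-!
# Local smoothing in the mean over dilations (helper44): the shells and their sum
-/

set_option autoImplicit false

namespace Pool.Agent.T9h44.LS5

open MeasureTheory Real Pool.Agent.N303.LS Pool.Agent.N558.LS Pool.Agent.T9h44.LS4
open scoped ENNReal SchwartzMap RealInnerProductSpace FourierTransform ComplexConjugate Topology

variable {n : ℕ}

/-- one shell, positive sign -/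
theorem hi_plusI (I : Finset (Fin n)) (p : ℝ) (hp : 1 ≤ p) (e : ℝ) (hL : LinkSt n)
    (hR : RoughI n I p e)
    (m : (Fin n → ℝ) → ℝ → E n → ℝ) (C : ℝ) (hC : 0 < C)
    (hM : ∀ t ∈ Set.Icc (1 : ℝ) 2, ∀ g ∈ box n, ∀ κ ∈ Set.Icc (0 : ℝ) 1, ∀ R : ℝ, 0 < R →
      MulB C p fun ξ => ((Real.exp (2 * π / t * Real.sqrt (Qd (fun i => (g i)⁻¹) (R⁻¹ • ξ))) *
        m g κ (R⁻¹ • ξ) : ℝ) : ℂ)) :
    ∃ K : ℝ, 0 < K ∧ ∀ g₀ ∈ box n, ∀ (h : 𝓢(E n, ℂ)) (R : ℝ), 1 ≤ R →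
      ∫⁻ g in box n, ∫⁻ t in Set.Icc (1 : ℝ) 2, ∫⁻ x : E n,
        ‖inv (fun ξ => Complex.exp (((2 * π * t * Ng (mix I g₀ g) ξ : ℝ) : ℂ) * Complex.I) *
          ((m (mix I g₀ g) ((R⁻¹) ^ 2) (R⁻¹ • ξ) : ℝ) : ℂ) * 𝓕 (h : E n → ℂ) ξ) x‖ₑ ^ p ≤
      ENNReal.ofReal (K * R ^ e) * ∫⁻ x : E n, ‖h x‖ₑ ^ p := by
  obtain ⟨C2, hC2, hR⟩ := hR
  have hp0 : 0 < p := by linarith
  set c0 : ℝ := ((2 : ℝ) ^ n) ^ (1 / 2 : ℝ) * 3 with hc0
  have hc0p : 0 < c0 := by positivity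
  refine ⟨C ^ p * c0 ^ p * C2, by positivity, ?_⟩
  intro g₀ hg₀ h R hR1
  have hR0 : 0 < R := by linarith
  have hRi : R⁻¹ ≤ 1 := inv_le_one_of_one_le₀ hR1
  set F : (Fin n → ℝ) → ℂ := fun u => h (WithLp.toLp 2 u) with hF
  have hFm : Measurable F := h.continuous.measurable.comp (MeasurableEquiv.toLp 2 _).measurable
  have hFi : Integrable F :=
    (vp'.integrable_comp_emb (MeasurableEquiv.toLp 2 (Fin n → ℝ)).measurableEmbedding).2
      h.integrable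
  have hFb : ∃ B : ℝ, ∀ u, ‖F u‖ ≤ B := by
    obtain ⟨B, hB⟩ := h.decay 0 0
    refine ⟨B, fun u => ?_⟩
    have := hB.2 (WithLp.toLp 2 u)
    simpa using this
  have hFp : ∫⁻ u, ‖F u‖ₑ ^ p = ∫⁻ x : E n, ‖h x‖ₑ ^ p := lint_E' fun x => ‖h x‖ₑ ^ p
  have h1 := hR g₀ hg₀ F hFm hFi hFb R⁻¹ (by positivity) hRi
  rw [hFp] at h1
  calc ∫⁻ g in box n, ∫⁻ t in Set.Icc (1 : ℝ) 2, ∫⁻ x : E n,
        ‖inv (fun ξ => Complex.exp (((2 * π * t * Ng (mix I g₀ g) ξ : ℝ) : ℂ) * Complex.I) *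
          ((m (mix I g₀ g) ((R⁻¹) ^ 2) (R⁻¹ • ξ) : ℝ) : ℂ) * 𝓕 (h : E n → ℂ) ξ) x‖ₑ ^ p
      ≤ ∫⁻ g in box n, ∫⁻ t in Set.Icc (1 : ℝ) 2, ENNReal.ofReal (C ^ p * c0 ^ p) *
          ∫⁻ x : Fin n → ℝ, ‖∫ u, Ker n R⁻¹ (t ^ 2 - R⁻¹ ^ 2 / t ^ 2) (mix I g₀ g) (x - u) * F u‖ₑ ^ p := by
        refine setLIntegral_mono' measurableSet_box fun g' hg' => ?_
        have hg : mix I g₀ g' ∈ box n := mix_mem I g₀ g' hg₀ hg'
        generalize mix I g₀ g' = g at hg ⊢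
        refine setLIntegral_mono' measurableSet_Icc fun t ht => ?_
        have ht0 : 0 < t := by linarith [ht.1]
        have h2 : (fun ξ => Complex.exp (((2 * π * t * Ng g ξ : ℝ) : ℂ) * Complex.I) *
          ((m g ((R⁻¹) ^ 2) (R⁻¹ • ξ) : ℝ) : ℂ) * 𝓕 (h : E n → ℂ) ξ) =
          fun ξ => ((Real.exp (2 * π / t * Real.sqrt (Qd (fun i => (g i)⁻¹) (R⁻¹ • ξ))) *
            m g ((R⁻¹) ^ 2) (R⁻¹ • ξ) : ℝ) : ℂ) *
            (Complex.exp (2 * π * Complex.I * (Ng g ξ : ℝ) * tau R⁻¹ t) *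
              𝓕 (h : E n → ℂ) ξ) := by
          funext ξ
          rw [exp_split g R t hR0 ht0 ξ]
          push_cast
          ring
        rw [h2]
        have hGi : Integrable fun ξ : E n =>
            Complex.exp (2 * π * Complex.I * (Ng g ξ : ℝ) * tau R⁻¹ t) * 𝓕 (h : E n → ℂ) ξ := by
          refine (fou_int h).bdd_mul (c := 1) ?_ (Filter.Eventually.of_forall fun ξ => ?_)
          · have := continuous_Ng g
            exact (by fun_prop : Continuous fun ξ : E n =>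
              Complex.exp (2 * π * Complex.I * (Ng g ξ : ℝ) * tau R⁻¹ t)).aestronglyMeasurable
          · rw [Complex.norm_exp]
            have e : (2 * π * Complex.I * (Ng g ξ : ℝ) * tau R⁻¹ t).re =
                -(2 * π * Ng g ξ * (R⁻¹ / t)) := by
              unfold tau
              have : (2 * π * Complex.I * (Ng g ξ : ℝ) * ((t : ℂ) + ((R⁻¹ / t : ℝ) : ℂ) *
                  Complex.I)) = ((-(2 * π * Ng g ξ * (R⁻¹ / t)) : ℝ) : ℂ) +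
                  ((2 * π * Ng g ξ * t : ℝ) : ℂ) * Complex.I := by
                push_cast
                have hI : Complex.I * Complex.I = -1 := Complex.I_mul_I
                linear_combination (2 * (π : ℂ) * (Ng g ξ : ℂ) * ((R : ℂ)⁻¹ / (t : ℂ))) * hI
              rw [this]
              simp
            rw [e, Real.exp_le_one_iff]
            have := Ng_nonneg g ξ
            have h3 : 0 ≤ 2 * π * Ng g ξ * (R⁻¹ / t) := by positivity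
            linarith
        have h3 := hM t ht g hg ((R⁻¹) ^ 2) ⟨by positivity, by
          have : 0 ≤ R⁻¹ := by positivity
          nlinarith⟩ R hR0 _ hGi
        refine h3.trans ?_
        rw [ENNReal.ofReal_mul (p := C ^ p) (by positivity),
          mul_assoc (ENNReal.ofReal (C ^ p))]
        refine mul_le_mul' le_rfl ?_
        rw [← lint_E fun x => ‖∫ u, Ker n R⁻¹ (t ^ 2 - R⁻¹ ^ 2 / t ^ 2) g (x - u) * F u‖ₑ ^ p,
          ← lintegral_const_mul' _ _ ENNReal.ofReal_ne_top]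
        refine lintegral_mono fun x => ?_
        rw [hL g (fun i => by linarith [(hg i).1]) R⁻¹ t (by positivity) ht0 h x, enorm_mul,
          ENNReal.mul_rpow_of_nonneg _ _ hp0.le]
        refine mul_le_mul' ?_ le_rfl
        rw [← ENNReal.ofReal_rpow_of_nonneg hc0p.le hp0.le]
        refine ENNReal.rpow_le_rpow ?_ hp0.le
        rw [← ofReal_norm]
        exact ENNReal.ofReal_le_ofReal (norm_const g hg R⁻¹ t (by positivity) hRi ht)
    _ = ENNReal.ofReal (C ^ p * c0 ^ p) * ∫⁻ g in box n, ∫⁻ t in Set.Icc (1 : ℝ) 2,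
          ∫⁻ x : Fin n → ℝ, ‖∫ u, Ker n R⁻¹ (t ^ 2 - R⁻¹ ^ 2 / t ^ 2) (mix I g₀ g) (x - u) *
            F u‖ₑ ^ p := by
        rw [← lintegral_const_mul' _ _ ENNReal.ofReal_ne_top]
        refine lintegral_congr fun g => ?_
        rw [← lintegral_const_mul' _ _ ENNReal.ofReal_ne_top]
    _ ≤ ENNReal.ofReal (C ^ p * c0 ^ p) * (ENNReal.ofReal (C2 * R⁻¹ ^ (-e)) *
          ∫⁻ x : E n, ‖h x‖ₑ ^ p) := mul_le_mul' le_rfl h1
    _ = _ := by
        rw [← mul_assoc, ← ENNReal.ofReal_mul (by positivity)]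
        congr 2
        rw [Real.inv_rpow hR0.le, ← Real.rpow_neg hR0.le, neg_neg]
        ring

/-- one shell, negative sign -/
theorem hi_minusI (I : Finset (Fin n)) (p : ℝ) (hp : 1 ≤ p) (e : ℝ) (hL : LinkSt n)
    (hR : RoughI n I p e)
    (m : (Fin n → ℝ) → ℝ → E n → ℝ) (hm : ∀ g κ η, m g κ (-η) = m g κ η) (C : ℝ) (hC : 0 < C)
    (hM : ∀ t ∈ Set.Icc (1 : ℝ) 2, ∀ g ∈ box n, ∀ κ ∈ Set.Icc (0 : ℝ) 1, ∀ R : ℝ, 0 < R →
      MulB C p fun ξ => ((Real.exp (2 * π / t * Real.sqrt (Qd (fun i => (g i)⁻¹) (R⁻¹ • ξ))) *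
        m g κ (R⁻¹ • ξ) : ℝ) : ℂ)) :
    ∃ K : ℝ, 0 < K ∧ ∀ g₀ ∈ box n, ∀ (h : 𝓢(E n, ℂ)) (R : ℝ), 1 ≤ R →
      ∫⁻ g in box n, ∫⁻ t in Set.Icc (1 : ℝ) 2, ∫⁻ x : E n,
        ‖inv (fun ξ => Complex.exp (((-(2 * π * t * Ng (mix I g₀ g) ξ) : ℝ) : ℂ) * Complex.I) *
          ((m (mix I g₀ g) ((R⁻¹) ^ 2) (R⁻¹ • ξ) : ℝ) : ℂ) * 𝓕 (h : E n → ℂ) ξ) x‖ₑ ^ p ≤
      ENNReal.ofReal (K * R ^ e) * ∫⁻ x : E n, ‖h x‖ₑ ^ p := by
  obtain ⟨K, hK, h1⟩ := hi_plusI I p hp e hL hR m C hC hM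
  refine ⟨K, hK, fun g₀ hg₀ h R hR1 => ?_⟩
  have h2 := h1 g₀ hg₀ (cj h) R hR1
  have e1 : ∫⁻ x : E n, ‖cj h x‖ₑ ^ p = ∫⁻ x : E n, ‖h x‖ₑ ^ p := by
    refine lintegral_congr fun x => ?_
    rw [cj_apply, enorm_conj]
  rw [e1] at h2
  refine le_trans (le_of_eq ?_) h2
  refine lintegral_congr fun g => lintegral_congr fun t => lintegral_congr fun x => ?_
  rw [inv_minus (2 * π * t) (mix I g₀ g) (fun ξ => m (mix I g₀ g) ((R⁻¹) ^ 2) (R⁻¹ • ξ)) (fun ξ => by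
    rw [smul_neg, hm]) h x, enorm_conj]

/-- the general lemma -/
theorem genI (I : Finset (Fin n)) (p : ℝ) (hp : 1 ≤ p) (e s β : ℝ) (hβ : 0 < β)
    (hβe : e - s * p = -β) (hL : LinkSt n) (hR : RoughI n I p e)
    (m : (Fin n → ℝ) → ℝ → E n → ℝ) (hm : ∀ g κ η, m g κ (-η) = m g κ η)
    (hmm : ∀ κ, Measurable fun q : (Fin n → ℝ) × E n => m q.1 κ q.2)
    (hmb : ∀ g ∈ box n, ∀ κ ∈ Set.Icc (0 : ℝ) 1, ∃ B : ℝ, ∀ η, |m g κ η| ≤ B)
    (C : ℝ) (hC : 0 < C)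
    (hM : ∀ t ∈ Set.Icc (1 : ℝ) 2, ∀ g ∈ box n, ∀ κ ∈ Set.Icc (0 : ℝ) 1, ∀ R : ℝ, 0 < R →
      MulB C p fun ξ => ((Real.exp (2 * π / t * Real.sqrt (Qd (fun i => (g i)⁻¹) (R⁻¹ • ξ))) *
        m g κ (R⁻¹ • ξ) : ℝ) : ℂ))
    (Λ : (Fin n → ℝ) × ℝ × E n → ℂ) (hΛm : Measurable Λ)
    (hΛi : ∀ g ∈ box n, ∀ t ∈ Set.Icc (1 : ℝ) 2, ∀ h : 𝓢(E n, ℂ),
      Integrable fun ξ => Λ (g, t, ξ) * 𝓕 (h : E n → ℂ) ξ)
    (c₁ c₂ : ℂ) (hc₁ : ‖c₁‖ ≤ 1) (hc₂ : ‖c₂‖ ≤ 1)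
    (hΛ : ∀ g ∈ box n, ∀ t ∈ Set.Icc (1 : ℝ) 2, ∀ R : ℝ, 1 ≤ R → ∀ ξ : E n,
      ((psi n (R⁻¹ • ξ) : ℝ) : ℂ) * Λ (g, t, ξ) = ((R ^ (-s) : ℝ) : ℂ) *
        ((c₁ * Complex.exp (((2 * π * t * Ng g ξ : ℝ) : ℂ) * Complex.I) +
          c₂ * Complex.exp (((-(2 * π * t * Ng g ξ) : ℝ) : ℂ) * Complex.I)) *
        ((m g ((R⁻¹) ^ 2) (R⁻¹ • ξ) : ℝ) : ℂ)))
    (C0 : ℝ)
    (hlow : ∀ g ∈ box n, ∀ t ∈ Set.Icc (1 : ℝ) 2,
      MulB C0 p fun ξ => ((phi n ξ : ℝ) : ℂ) * Λ (g, t, ξ)) :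
    ∃ K : ℝ, 0 < K ∧ ∀ g₀ ∈ box n, ∀ h : 𝓢(E n, ℂ),
      ∫⁻ g in box n, ∫⁻ t in Set.Icc (1 : ℝ) 2, ∫⁻ x : E n,
        ‖inv (fun ξ => Λ (mix I g₀ g, t, ξ) * 𝓕 (h : E n → ℂ) ξ) x‖ₑ ^ p ≤
      ENNReal.ofReal K * ∫⁻ x : E n, ‖h x‖ₑ ^ p := by
  have hp0 : 0 < p := by linarith
  obtain ⟨K1, hK1, H1⟩ := hi_plusI I p hp e hL hR m C hC hM
  obtain ⟨K2, hK2, H2⟩ := hi_minusI I p hp e hL hR m hm C hC hM
  set r : ℝ≥0∞ := ENNReal.ofReal ((2 : ℝ) ^ (-(β / 2))) with hr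
  have hr0 : r ≠ 0 := by
    rw [hr, Ne, ENNReal.ofReal_eq_zero, not_le]
    positivity
  have hr1 : r < 1 := by
    rw [hr, ENNReal.ofReal_lt_one]
    exact Real.rpow_lt_one_of_one_lt_of_neg (by norm_num) (by linarith)
  set D : ℝ≥0∞ := ((1 - r ^ (1 / p))⁻¹) ^ p * (1 - r)⁻¹ with hD
  have hDt : D < ⊤ := sum_pow_const_lt p hp0 r hr1
  set K0 : ℝ≥0∞ := ENNReal.ofReal (2 ^ p) * (ENNReal.ofReal (C0 ^ p) +
    D * (ENNReal.ofReal (2 ^ p) * ENNReal.ofReal (K1 + K2))) with hK0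
  have hK0t : K0 < ⊤ := by
    refine ENNReal.mul_lt_top ENNReal.ofReal_lt_top (ENNReal.add_lt_top.2
      ⟨ENNReal.ofReal_lt_top, ENNReal.mul_lt_top hDt
        (ENNReal.mul_lt_top ENNReal.ofReal_lt_top ENNReal.ofReal_lt_top)⟩)
  refine ⟨K0.toReal + 1, by positivity, ?_⟩
  intro g₀ hg₀ h
  have hmix : Measurable (mix I g₀) := (mix_cont I g₀).measurable
  set H : ℝ≥0∞ := ∫⁻ x : E n, ‖h x‖ₑ ^ p with hH
  have hfm : Measurable (𝓕 (h : E n → ℂ)) := (fou_cont h).measurable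
  -- the functions on the product space
  set μ : Measure ((Fin n → ℝ) × ℝ × E n) := (volume.restrict (box n)).prod
    ((volume.restrict (Set.Icc (1 : ℝ) 2)).prod (volume : Measure (E n))) with hμ
  set Rj : ℕ → ℝ := fun j => (2 : ℝ) ^ (j + 1) with hRj
  have hR1 : ∀ j, 1 ≤ Rj j := fun j => one_le_pow₀ (by norm_num)
  have hR0 : ∀ j, 0 < Rj j := fun j => by
    have := hR1 j
    linarith
  have hκ : ∀ j, ((Rj j)⁻¹) ^ 2 ∈ Set.Icc (0 : ℝ) 1 := fun j => by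
    have h1 := inv_le_one_of_one_le₀ (hR1 j)
    have h2 : 0 ≤ (Rj j)⁻¹ := by
      have := hR0 j
      positivity
    exact ⟨by positivity, by nlinarith⟩
  set SP : ℕ → (Fin n → ℝ) × ℝ × E n → ℂ := fun j q =>
    Complex.exp (((2 * π * q.2.1 * Ng (mix I g₀ q.1) q.2.2 : ℝ) : ℂ) * Complex.I) *
      ((m (mix I g₀ q.1) (((Rj j)⁻¹) ^ 2) ((Rj j)⁻¹ • q.2.2) : ℝ) : ℂ) *
      𝓕 (h : E n → ℂ) q.2.2 with hSP
  set SM : ℕ → (Fin n → ℝ) × ℝ × E n → ℂ := fun j q =>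
    Complex.exp (((-(2 * π * q.2.1 * Ng (mix I g₀ q.1) q.2.2) : ℝ) : ℂ) * Complex.I) *
      ((m (mix I g₀ q.1) (((Rj j)⁻¹) ^ 2) ((Rj j)⁻¹ • q.2.2) : ℝ) : ℂ) *
      𝓕 (h : E n → ℂ) q.2.2 with hSM
  have hNm : Measurable fun q : (Fin n → ℝ) × ℝ × E n => Ng (mix I g₀ q.1) q.2.2 :=
    Measurable.comp (g := fun q : (Fin n → ℝ) × E n => Ng q.1 q.2)
      (f := fun q : (Fin n → ℝ) × ℝ × E n => (mix I g₀ q.1, q.2.2)) meas_Ng (by fun_prop)
  have hmj : ∀ j, Measurable fun q : (Fin n → ℝ) × ℝ × E n =>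
      m (mix I g₀ q.1) (((Rj j)⁻¹) ^ 2) ((Rj j)⁻¹ • q.2.2) := fun j =>
    Measurable.comp (g := fun q : (Fin n → ℝ) × E n => m q.1 (((Rj j)⁻¹) ^ 2) q.2)
      (f := fun q : (Fin n → ℝ) × ℝ × E n => (mix I g₀ q.1, (Rj j)⁻¹ • q.2.2)) (hmm _)
      (by fun_prop)
  have hSPm : ∀ j, Measurable (SP j) := fun j => by
    refine Measurable.mul (Measurable.mul ?_ ?_) (hfm.comp (by fun_prop))
    · fun_prop
    · exact Complex.measurable_ofReal.comp (hmj j)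
  have hSMm : ∀ j, Measurable (SM j) := fun j => by
    refine Measurable.mul (Measurable.mul ?_ ?_) (hfm.comp (by fun_prop))
    · fun_prop
    · exact Complex.measurable_ofReal.comp (hmj j)
  set P : ℕ → (Fin n → ℝ) × ℝ × E n → ℂ := fun j q =>
    inv (fun ξ => SP j (q.1, q.2.1, ξ)) q.2.2 with hP
  set M : ℕ → (Fin n → ℝ) × ℝ × E n → ℂ := fun j q =>
    inv (fun ξ => SM j (q.1, q.2.1, ξ)) q.2.2 with hM'
  have hPm : ∀ j, Measurable (P j) := fun j => meas_inv _ (hSPm j)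
  have hMm : ∀ j, Measurable (M j) := fun j => meas_inv _ (hSMm j)
  set w : ℕ → (Fin n → ℝ) × ℝ × E n → ℝ≥0∞ := fun j q =>
    ENNReal.ofReal ((Rj j) ^ (-s)) * (‖P j q‖ₑ + ‖M j q‖ₑ) with hw
  have hwm : ∀ j, Measurable (w j) := fun j => ((hPm j).enorm.add (hMm j).enorm).const_mul _
  set Lf : (Fin n → ℝ) × ℝ × E n → ℂ := fun q =>
    inv (fun ξ => ((phi n ξ : ℝ) : ℂ) * (Λ (mix I g₀ q.1, q.2.1, ξ) *
      𝓕 (h : E n → ℂ) ξ)) q.2.2 with hLf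
  have hLm : Measurable Lf := by
    have hΛ' : Measurable fun q : (Fin n → ℝ) × ℝ × E n => Λ (mix I g₀ q.1, q.2.1, q.2.2) :=
      Measurable.comp (g := Λ) (f := fun q : (Fin n → ℝ) × ℝ × E n =>
        (mix I g₀ q.1, q.2.1, q.2.2)) hΛm (by fun_prop)
    refine meas_inv (fun q => ((phi n q.2.2 : ℝ) : ℂ) * (Λ (mix I g₀ q.1, q.2.1, q.2.2) *
      𝓕 (h : E n → ℂ) q.2.2)) ?_
    refine Measurable.mul ?_ (Measurable.mul hΛ' (hfm.comp (by fun_prop)))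
    exact Complex.measurable_ofReal.comp (phi_cont.measurable.comp (by fun_prop))
  -- integrability of the pieces
  have hSi : ∀ g ∈ box n, ∀ j, ∀ a : ℝ, Integrable fun ξ : E n =>
      Complex.exp (((a * Ng g ξ : ℝ) : ℂ) * Complex.I) *
        ((m g (((Rj j)⁻¹) ^ 2) ((Rj j)⁻¹ • ξ) : ℝ) : ℂ) * 𝓕 (h : E n → ℂ) ξ := by
    intro g hg j a
    obtain ⟨B, hB⟩ := hmb g hg (((Rj j)⁻¹) ^ 2) (hκ j)
    refine (fou_int h).bdd_mul (c := B) ?_ (Filter.Eventually.of_forall fun ξ => ?_)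
    · refine Measurable.aestronglyMeasurable (Measurable.mul ?_ ?_)
      · have := (continuous_Ng g).measurable
        fun_prop
      · exact Complex.measurable_ofReal.comp (Measurable.comp
          (g := fun q : (Fin n → ℝ) × E n => m q.1 (((Rj j)⁻¹) ^ 2) q.2)
          (f := fun ξ : E n => (g, (Rj j)⁻¹ • ξ)) (hmm _) (by fun_prop))
    · rw [norm_mul, Complex.norm_exp_ofReal_mul_I, one_mul, Complex.norm_real, Real.norm_eq_abs]
      exact hB _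
  -- pointwise
  have hpt : ∀ g ∈ box n, ∀ t ∈ Set.Icc (1 : ℝ) 2, ∀ x : E n,
      ‖inv (fun ξ => Λ (mix I g₀ g, t, ξ) * 𝓕 (h : E n → ℂ) ξ) x‖ₑ ≤ ‖Lf (g, t, x)‖ₑ +
        ∑' j, w j (g, t, x) := by
    intro g hg' t ht x
    have hg := mix_mem I g₀ g hg₀ hg'
    refine (shells _ (hΛi _ hg t ht h) x).trans (add_le_add le_rfl
      (ENNReal.tsum_le_tsum fun j => ?_))
    have e1 : (fun ξ => ((psi n (((2 : ℝ) ^ (j + 1))⁻¹ • ξ) : ℝ) : ℂ) *
        (Λ (mix I g₀ g, t, ξ) * 𝓕 (h : E n → ℂ) ξ)) = fun ξ => (((Rj j) ^ (-s) : ℝ) : ℂ) *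
        (c₁ * SP j (g, t, ξ) + c₂ * SM j (g, t, ξ)) := by
      funext ξ
      have := hΛ _ hg t ht (Rj j) (hR1 j) ξ
      simp only [hSP, hSM]
      rw [← mul_assoc]
      have e0 : ((2 : ℝ) ^ (j + 1))⁻¹ = (Rj j)⁻¹ := rfl
      rw [e0, this]
      ring
    have i1 : Integrable fun ξ => SP j (g, t, ξ) := hSi _ hg j (2 * π * t)
    have i2 : Integrable fun ξ => SM j (g, t, ξ) := by
      have := hSi _ hg j (-(2 * π * t))
      simp only [hSM]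
      simpa only [neg_mul] using this
    rw [e1, inv_const_mul, inv_add _ _ (i1.const_mul c₁) (i2.const_mul c₂), inv_const_mul,
      inv_const_mul, enorm_mul]
    simp only [hw]
    refine mul_le_mul' (le_of_eq ?_) ?_
    · rw [← ofReal_norm, Complex.norm_real, Real.norm_of_nonneg]
      have := hR0 j
      positivity
    · refine (enorm_add_le _ _).trans (add_le_add ?_ ?_)
      · rw [enorm_mul]
        refine mul_le_of_le_one_left zero_le ?_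
        rw [← ofReal_norm, ← ENNReal.ofReal_one]
        exact ENNReal.ofReal_le_ofReal hc₁
      · rw [enorm_mul]
        refine mul_le_of_le_one_left zero_le ?_
        rw [← ofReal_norm, ← ENNReal.ofReal_one]
        exact ENNReal.ofReal_le_ofReal hc₂
  -- the estimate of one shell
  have hshell : ∀ j, ∫⁻ q, w j q ^ p ∂μ ≤
      (ENNReal.ofReal (2 ^ p) * ENNReal.ofReal (K1 + K2) * H) * (r ^ j) ^ 2 := by
    intro j
    have hRp := hR0 j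
    have a1 : ∫⁻ q, ‖P j q‖ₑ ^ p ∂μ ≤
        ENNReal.ofReal (K1 * (Rj j) ^ e) * H := by
      rw [hμ, ← iter _ ((hPm j).enorm.pow_const p)]
      exact H1 g₀ hg₀ h (Rj j) (hR1 j)
    have a2 : ∫⁻ q, ‖M j q‖ₑ ^ p ∂μ ≤
        ENNReal.ofReal (K2 * (Rj j) ^ e) * H := by
      rw [hμ, ← iter _ ((hMm j).enorm.pow_const p)]
      exact H2 g₀ hg₀ h (Rj j) (hR1 j)
    calc ∫⁻ q, w j q ^ p ∂μ
        ≤ ∫⁻ q, ENNReal.ofReal ((Rj j) ^ (-s)) ^ p * (ENNReal.ofReal (2 ^ p) *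
            (‖P j q‖ₑ ^ p + ‖M j q‖ₑ ^ p)) ∂μ := by
          refine lintegral_mono fun q => ?_
          simp only [hw]
          rw [ENNReal.mul_rpow_of_nonneg _ _ hp0.le]
          exact mul_le_mul' le_rfl (add_rpow_le2 _ _ p hp0.le)
      _ = ENNReal.ofReal ((Rj j) ^ (-s)) ^ p * (ENNReal.ofReal (2 ^ p) *
            (∫⁻ q, ‖P j q‖ₑ ^ p ∂μ + ∫⁻ q, ‖M j q‖ₑ ^ p ∂μ)) := by
          rw [lintegral_const_mul' _ _ (ENNReal.rpow_ne_top_of_nonneg hp0.le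
            ENNReal.ofReal_ne_top), lintegral_const_mul' _ _ ENNReal.ofReal_ne_top,
            lintegral_add_left ((hPm j).enorm.pow_const p)]
      _ ≤ ENNReal.ofReal ((Rj j) ^ (-s)) ^ p * (ENNReal.ofReal (2 ^ p) *
            (ENNReal.ofReal (K1 * (Rj j) ^ e) * H +
              ENNReal.ofReal (K2 * (Rj j) ^ e) * H)) := by
          gcongr
      _ = (ENNReal.ofReal (2 ^ p) * ENNReal.ofReal (K1 + K2) * H) *
            ENNReal.ofReal ((Rj j) ^ (-β)) := by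
          have e3 : ENNReal.ofReal ((Rj j) ^ (-s)) ^ p *
              ENNReal.ofReal ((Rj j) ^ e) = ENNReal.ofReal ((Rj j) ^ (-β)) := by
            rw [ENNReal.ofReal_rpow_of_nonneg (by positivity) hp0.le, ← Real.rpow_mul hRp.le,
              ← ENNReal.ofReal_mul (by positivity), ← Real.rpow_add hRp]
            congr 2
            rw [← hβe]
            ring
          rw [← e3, ENNReal.ofReal_mul hK1.le, ENNReal.ofReal_mul hK2.le,
            ENNReal.ofReal_add hK1.le hK2.le]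
          ring
      _ ≤ _ := by
          refine mul_le_mul' le_rfl ?_
          rw [hr, ← ENNReal.ofReal_pow (by positivity), ← ENNReal.ofReal_pow (by positivity)]
          refine ENNReal.ofReal_le_ofReal ?_
          have e4 : (((2 : ℝ) ^ (-(β / 2))) ^ j) ^ 2 = (2 : ℝ) ^ (-(β * j)) := by
            rw [← pow_mul, ← Real.rpow_natCast, ← Real.rpow_mul (by norm_num)]
            congr 1
            push_cast
            ring
          have e5 : (Rj j) ^ (-β) = (2 : ℝ) ^ (-(β * (j + 1))) := by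
            simp only [hRj]
            rw [← Real.rpow_natCast, ← Real.rpow_mul (by norm_num)]
            congr 1
            push_cast
            ring
          rw [e4, e5]
          refine Real.rpow_le_rpow_of_exponent_le (by norm_num) ?_
          nlinarith
  have hsum := sum_pow μ w hwm p hp0 _ r hr0 hr1 hshell
  rw [← hD] at hsum
  -- the low part
  have hlowb : ∫⁻ q, ‖Lf q‖ₑ ^ p ∂μ ≤ ENNReal.ofReal (C0 ^ p) * H := by
    rw [hμ, ← iter _ (hLm.enorm.pow_const p)]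
    calc ∫⁻ g in box n, ∫⁻ t in Set.Icc (1 : ℝ) 2, ∫⁻ x : E n, ‖Lf (g, t, x)‖ₑ ^ p
        ≤ ∫⁻ g in box n, ∫⁻ t in Set.Icc (1 : ℝ) 2, ENNReal.ofReal (C0 ^ p) * H := by
          refine setLIntegral_mono' measurableSet_box fun g hg => ?_
          refine setLIntegral_mono' measurableSet_Icc fun t ht => ?_
          have h1 := hlow _ (mix_mem I g₀ g hg₀ hg) t ht (𝓕 (h : E n → ℂ)) (fou_int h)
          rw [inv_fou h] at h1
          refine le_trans (le_of_eq ?_) h1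
          refine lintegral_congr fun x => ?_
          simp only [hLf]
          congr 3
          funext ξ
          ring
      _ = ENNReal.ofReal (C0 ^ p) * H := by
          rw [setLIntegral_const, setLIntegral_const, vol_box, Real.volume_Icc]
          norm_num
  calc ∫⁻ g in box n, ∫⁻ t in Set.Icc (1 : ℝ) 2, ∫⁻ x : E n,
        ‖inv (fun ξ => Λ (mix I g₀ g, t, ξ) * 𝓕 (h : E n → ℂ) ξ) x‖ₑ ^ p
      ≤ ∫⁻ g in box n, ∫⁻ t in Set.Icc (1 : ℝ) 2, ∫⁻ x : E n, ENNReal.ofReal (2 ^ p) *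
          (‖Lf (g, t, x)‖ₑ ^ p + (∑' j, w j (g, t, x)) ^ p) := by
        refine setLIntegral_mono' measurableSet_box fun g hg => ?_
        refine setLIntegral_mono' measurableSet_Icc fun t ht => ?_
        refine lintegral_mono fun x => ?_
        exact (ENNReal.rpow_le_rpow (hpt g hg t ht x) hp0.le).trans (add_rpow_le2 _ _ p hp0.le)
    _ = ∫⁻ q, ENNReal.ofReal (2 ^ p) * (‖Lf q‖ₑ ^ p + (∑' j, w j q) ^ p) ∂μ := by
        rw [hμ, ← iter]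
        exact ((hLm.enorm.pow_const p).add ((Measurable.tsum hwm).pow_const p)).const_mul _
    _ = ENNReal.ofReal (2 ^ p) * (∫⁻ q, ‖Lf q‖ₑ ^ p ∂μ + ∫⁻ q, (∑' j, w j q) ^ p ∂μ) := by
        rw [lintegral_const_mul' _ _ ENNReal.ofReal_ne_top,
          lintegral_add_left (hLm.enorm.pow_const p)]
    _ ≤ ENNReal.ofReal (2 ^ p) * (ENNReal.ofReal (C0 ^ p) * H +
          D * (ENNReal.ofReal (2 ^ p) * ENNReal.ofReal (K1 + K2) * H)) :=
        mul_le_mul' le_rfl (add_le_add hlowb hsum)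
    _ = K0 * H := by
        rw [hK0]
        ring
    _ ≤ ENNReal.ofReal (K0.toReal + 1) * H := by
        refine mul_le_mul' ?_ le_rfl
        calc K0 = ENNReal.ofReal K0.toReal := (ENNReal.ofReal_toReal hK0t.ne).symm
          _ ≤ _ := ENNReal.ofReal_le_ofReal (by linarith)

end Pool.Agent.T9h44.LS5
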