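import Pool.Agent.T9h44.LS5.C4
import Pool.Agent.N303.LS.Fin2
import Pool.Agent.T9h82.LS.E2
import Pool.Agent.T9h82.LS.E3
import Pool.Agent.T9h82.LS.HI
import Pool.Agent.T9h82.LS.LO
import Pool.Agent.T9h82.LS.Link

/-!
# Local smoothing in the mean over dilations (helper44): the two propagators
-/

set_option autoImplicit false

namespace Pool.Agent.T9h44.LS5

open MeasureTheory Real Pool.Agent.N303.LS Pool.Agent.N558.LS Pool.Agent.T9h44.LS4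
open scoped ENNReal SchwartzMap RealInnerProductSpace FourierTransform ComplexConjugate Topology

variable {n : ℕ}

lemma sqrtQ (g : Fin n → ℝ) (ξ : E n) :
    Real.sqrt (Qd (fun i => (g i)⁻¹) ξ) = Ng g ξ := by
  unfold Qd Ng
  congr 1
  refine Finset.sum_congr rfl fun i _ => ?_
  ring

lemma inv_mem (g : Fin n → ℝ) (hg : g ∈ box n) (i : Fin n) : (g i)⁻¹ ∈ Set.Icc (1 / 2 : ℝ) 1 := by
  have h := hg i
  constructor
  · rw [one_div]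
    exact inv_anti₀ (by linarith [h.1]) h.2
  · exact inv_le_one_of_one_le₀ h.1

/-- the multiplier of a shell -/
noncomputable def mm (a b : ℝ) (g : Fin n → ℝ) (κ : ℝ) (η : E n) : ℝ :=
  Qd (fun i => (g i)⁻¹) η ^ b * (κ + 4 * π ^ 2 * ‖η‖ ^ 2) ^ a * psi n η

lemma mm_neg (a b : ℝ) (g : Fin n → ℝ) (κ : ℝ) (η : E n) : mm a b g κ (-η) = mm a b g κ η := by
  unfold mm Qd
  rw [psi_neg, norm_neg]
  simp

lemma mm_meas (a b κ : ℝ) : Measurable fun q : (Fin n → ℝ) × E n => mm a b q.1 κ q.2 := by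
  unfold mm Qd
  have h1 : Measurable fun q : (Fin n → ℝ) × E n => psi n q.2 :=
    psi_cont.measurable.comp measurable_snd
  fun_prop

lemma Qd_ge (g : Fin n → ℝ) (hg : g ∈ box n) (η : E n) :
    (1 / 2) * ‖η‖ ^ 2 ≤ Qd (fun i => (g i)⁻¹) η := by
  unfold Qd
  rw [EuclideanSpace.norm_sq_eq, Finset.mul_sum]
  refine Finset.sum_le_sum fun i _ => ?_
  have h := (inv_mem g hg i).1
  rw [Real.norm_eq_abs, sq_abs]
  nlinarith [sq_nonneg (η i)]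

lemma mm_bdd (a b : ℝ) (g : Fin n → ℝ) (hg : g ∈ box n) (κ : ℝ) (hκ : κ ∈ Set.Icc (0 : ℝ) 1) :
    ∃ B : ℝ, ∀ η : E n, |mm a b g κ η| ≤ B := by
  set S : Set (E n) := Metric.closedBall 0 2 \ Metric.ball 0 (1 / 2) with hS
  have hSc : IsCompact S := (isCompact_closedBall 0 2).diff Metric.isOpen_ball
  have hSm : ∀ η ∈ S, 0 < ‖η‖ ^ 2 := by
    intro η hη
    have h1 : ¬ ‖η‖ < 1 / 2 := by
      intro h
      exact hη.2 (by rw [Metric.mem_ball, dist_zero_right]; exact h)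
    push Not at h1
    have : 0 < ‖η‖ := by linarith
    positivity
  have hQc : Continuous fun η : E n => Qd (fun i => (g i)⁻¹) η := by
    unfold Qd
    fun_prop
  have hc : ContinuousOn (mm a b g κ) S := by
    unfold mm
    refine ContinuousOn.mul (ContinuousOn.mul ?_ ?_) psi_cont.continuousOn
    · refine ContinuousOn.rpow_const hQc.continuousOn fun η hη => Or.inl ?_
      have h1 := Qd_ge g hg η
      have h2 := hSm η hη
      linarith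
    · refine ContinuousOn.rpow_const (by fun_prop) fun η hη => Or.inl ?_
      have h2 := hSm η hη
      have h3 := hκ.1
      positivity
  obtain ⟨B, hB⟩ := hSc.exists_bound_of_continuousOn hc
  refine ⟨max B 0, fun η => ?_⟩
  by_cases hη : η ∈ S
  · exact (hB η hη).trans (le_max_left _ _)
  · have h0 : psi n η = 0 := by
      by_cases h1 : ‖η‖ < 1 / 2
      · exact psi_low η h1
      · refine psi_high η ?_
        by_contra h2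
        push Not at h2
        refine hη ⟨?_, ?_⟩
        · rw [Metric.mem_closedBall, dist_zero_right]
          exact h2
        · rw [Metric.mem_ball, dist_zero_right]
          exact h1
    unfold mm
    rw [h0, mul_zero, abs_zero]
    exact le_max_right _ _

/-- the multipliers of the shells -/
lemma mm_mul (hH : S_HI n) (a b : ℝ) : ∃ C : ℝ, 0 < C ∧ ∀ p : ℝ, 1 ≤ p →
    ∀ t ∈ Set.Icc (1 : ℝ) 2, ∀ g ∈ box n, ∀ κ ∈ Set.Icc (0 : ℝ) 1, ∀ R : ℝ, 0 < R →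
      MulB C p fun ξ => ((Real.exp (2 * π / t * Real.sqrt (Qd (fun i => (g i)⁻¹) (R⁻¹ • ξ))) *
        mm a b g κ (R⁻¹ • ξ) : ℝ) : ℂ) := by
  obtain ⟨C, hC, h⟩ := hH a b (psi n) psi_smooth (fun η hη => psi_low η hη)
    (fun η hη => psi_high η hη)
  refine ⟨C, hC, ?_⟩
  intro p hp t ht g hg κ hκ R hR
  have h1 := h t ht (fun i => (g i)⁻¹) (fun i => inv_mem g hg i) κ hκ R hR p hp
  have e : (fun ξ : E n => ((Real.exp (2 * π / t *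
      Real.sqrt (Qd (fun i => (g i)⁻¹) (R⁻¹ • ξ))) * mm a b g κ (R⁻¹ • ξ) : ℝ) : ℂ)) =
      fun ξ => ((Real.exp (2 * π / t * Real.sqrt (Qd (fun i => (g i)⁻¹) (R⁻¹ • ξ))) *
        Qd (fun i => (g i)⁻¹) (R⁻¹ • ξ) ^ b * (κ + 4 * π ^ 2 * ‖R⁻¹ • ξ‖ ^ 2) ^ a *
        psi n (R⁻¹ • ξ) : ℝ) : ℂ) := by
    funext ξ
    unfold mm
    congr 1
    ring
  rw [e]
  exact h1

lemma bes_scale (a : ℝ) (R : ℝ) (hR : 0 < R) (ξ : E n) :
    (1 + 4 * π ^ 2 * ‖ξ‖ ^ 2) ^ a =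
      R ^ (2 * a) * (R⁻¹ ^ 2 + 4 * π ^ 2 * ‖R⁻¹ • ξ‖ ^ 2) ^ a := by
  have h1 : R⁻¹ ^ 2 + 4 * π ^ 2 * ‖R⁻¹ • ξ‖ ^ 2 = R⁻¹ ^ 2 * (1 + 4 * π ^ 2 * ‖ξ‖ ^ 2) := by
    rw [norm_smul, Real.norm_eq_abs, abs_of_pos (by positivity : 0 < R⁻¹)]
    ring
  rw [h1, Real.mul_rpow (by positivity) (by positivity), ← mul_assoc]
  have h2 : R ^ (2 * a) * (R⁻¹ ^ 2) ^ a = 1 := by
    rw [Real.rpow_mul hR.le, ← Real.mul_rpow (by positivity) (by positivity)]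
    have : R ^ (2 : ℝ) * R⁻¹ ^ 2 = 1 := by
      rw [Real.rpow_two]
      field_simp
    rw [this, Real.one_rpow]
  rw [h2, one_mul]

/-- the symbol of the first propagator -/
noncomputable def L0 (s : ℝ) (q : (Fin n → ℝ) × ℝ × E n) : ℂ :=
  ((Real.cos (2 * π * q.2.1 * Ng q.1 q.2.2) * (1 + 4 * π ^ 2 * ‖q.2.2‖ ^ 2) ^ (-s / 2) : ℝ) : ℂ)

/-- the symbol of the second propagator -/
noncomputable def L1 (s : ℝ) (q : (Fin n → ℝ) × ℝ × E n) : ℂ :=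
  ((Real.sin (2 * π * q.2.1 * Ng q.1 q.2.2) / (2 * π * Ng q.1 q.2.2) *
    (1 + 4 * π ^ 2 * ‖q.2.2‖ ^ 2) ^ ((1 - s) / 2) : ℝ) : ℂ)

lemma meas_Ng3 : Measurable fun q : (Fin n → ℝ) × ℝ × E n => Ng q.1 q.2.2 :=
  Measurable.comp (g := fun q : (Fin n → ℝ) × E n => Ng q.1 q.2)
    (f := fun q : (Fin n → ℝ) × ℝ × E n => (q.1, q.2.2)) meas_Ng (by fun_prop)

lemma L0_meas (s : ℝ) : Measurable (L0 (n := n) s) := by
  unfold L0
  have := meas_Ng3 (n := n)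
  fun_prop

lemma L1_meas (s : ℝ) : Measurable (L1 (n := n) s) := by
  unfold L1
  have := meas_Ng3 (n := n)
  fun_prop

lemma bes_int (a : ℝ) (h : 𝓢(E n, ℂ)) :
    Integrable fun ξ => (((1 + 4 * π ^ 2 * ‖ξ‖ ^ 2) ^ (a / 2) : ℝ) : ℂ) * 𝓕 (h : E n → ℂ) ξ := by
  obtain ⟨h', h1, -⟩ := mult (bes a) (bes_tg a) h
  have h2 := fou_int h'
  refine h2.congr (Filter.Eventually.of_forall fun ξ => ?_)
  simp only
  rw [h1 ξ]
  rfl

lemma L0_int (s : ℝ) (g : Fin n → ℝ) (t : ℝ) (h : 𝓢(E n, ℂ)) :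
    Integrable fun ξ => L0 s (g, t, ξ) * 𝓕 (h : E n → ℂ) ξ := by
  have h1 := bes_int (-s) h
  have hc : Continuous fun ξ : E n => ((Real.cos (2 * π * t * Ng g ξ) : ℝ) : ℂ) := by
    have := continuous_Ng g
    fun_prop
  have h2 := h1.bdd_mul (c := 1) hc.aestronglyMeasurable (Filter.Eventually.of_forall fun ξ => by
    rw [Complex.norm_real, Real.norm_eq_abs]
    exact Real.abs_cos_le_one _)
  refine h2.congr (Filter.Eventually.of_forall fun ξ => ?_)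
  simp only [L0]
  push_cast
  ring

lemma L1_int (s : ℝ) (g : Fin n → ℝ) (t : ℝ) (ht : t ∈ Set.Icc (1 : ℝ) 2) (h : 𝓢(E n, ℂ)) :
    Integrable fun ξ => L1 s (g, t, ξ) * 𝓕 (h : E n → ℂ) ξ := by
  have h1 := bes_int (1 - s) h
  have hc : Measurable fun ξ : E n =>
      ((Real.sin (2 * π * t * Ng g ξ) / (2 * π * Ng g ξ) : ℝ) : ℂ) := by
    have := (continuous_Ng g).measurable
    fun_prop
  have h2 := h1.bdd_mul (c := 2) hc.aestronglyMeasurable (Filter.Eventually.of_forall fun ξ => by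
    rw [Complex.norm_real, Real.norm_eq_abs, abs_div]
    have hN := Ng_nonneg g ξ
    rcases hN.eq_or_lt with h0 | h0
    · rw [← h0]
      norm_num
    · rw [abs_of_pos (by positivity : 0 < 2 * π * Ng g ξ), div_le_iff₀ (by positivity)]
      have h3 := Real.abs_sin_le_abs (x := 2 * π * t * Ng g ξ)
      have ht0 : 0 < t := by linarith [ht.1]
      rw [abs_of_pos (by positivity : 0 < 2 * π * t * Ng g ξ)] at h3
      refine h3.trans ?_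
      have h4 : 0 < 2 * π * Ng g ξ := by positivity
      nlinarith [ht.2])
  refine h2.congr (Filter.Eventually.of_forall fun ξ => ?_)
  simp only [L1]
  push_cast
  ring

lemma L0_shell (s : ℝ) (g : Fin n → ℝ) (t R : ℝ) (hR : 1 ≤ R) (ξ : E n) :
    ((psi n (R⁻¹ • ξ) : ℝ) : ℂ) * L0 s (g, t, ξ) = ((R ^ (-s) : ℝ) : ℂ) *
        (((1 / 2 : ℂ) * Complex.exp (((2 * π * t * Ng g ξ : ℝ) : ℂ) * Complex.I) +
          (1 / 2 : ℂ) * Complex.exp (((-(2 * π * t * Ng g ξ) : ℝ) : ℂ) * Complex.I)) *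
        ((mm (-s / 2) 0 g ((R⁻¹) ^ 2) (R⁻¹ • ξ) : ℝ) : ℂ)) := by
  have hR0 : 0 < R := by linarith
  unfold L0 mm
  simp only
  rw [bes_scale (-s / 2) R hR0 ξ, Real.rpow_zero, one_mul]
  have e1 : 2 * (-s / 2) = -s := by ring
  rw [e1]
  have e2 : ((Real.cos (2 * π * t * Ng g ξ) : ℝ) : ℂ) =
      (1 / 2 : ℂ) * Complex.exp (((2 * π * t * Ng g ξ : ℝ) : ℂ) * Complex.I) +
          (1 / 2 : ℂ) * Complex.exp (((-(2 * π * t * Ng g ξ) : ℝ) : ℂ) * Complex.I) := by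
    rw [Complex.ofReal_cos, Complex.cos, Complex.ofReal_neg]
    ring
  rw [← e2]
  push_cast
  ring

lemma L1_shell (s : ℝ) (g : Fin n → ℝ) (hg : g ∈ box n) (t R : ℝ) (hR : 1 ≤ R) (ξ : E n) :
    ((psi n (R⁻¹ • ξ) : ℝ) : ℂ) * L1 s (g, t, ξ) = ((R ^ (-s) : ℝ) : ℂ) *
        (((1 / (4 * π * Complex.I) : ℂ) *
            Complex.exp (((2 * π * t * Ng g ξ : ℝ) : ℂ) * Complex.I) +
          (-(1 / (4 * π * Complex.I)) : ℂ) *
            Complex.exp (((-(2 * π * t * Ng g ξ) : ℝ) : ℂ) * Complex.I)) *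
        ((mm ((1 - s) / 2) (-(1 / 2)) g ((R⁻¹) ^ 2) (R⁻¹ • ξ) : ℝ) : ℂ)) := by
  have hR0 : 0 < R := by linarith
  have hπ : (π : ℂ) ≠ 0 := by exact_mod_cast Real.pi_ne_zero
  unfold L1 mm
  simp only
  have e1 : 2 * ((1 - s) / 2) = -s + 1 := by ring
  have e3 : Qd (fun i => (g i)⁻¹) (R⁻¹ • ξ) ^ (-(1 / 2) : ℝ) = R * (Ng g ξ)⁻¹ := by
    have hQ : 0 ≤ Qd (fun i => (g i)⁻¹) (R⁻¹ • ξ) :=
      le_trans (by positivity) (Qd_ge g hg (R⁻¹ • ξ))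
    rw [Real.rpow_neg hQ, ← Real.sqrt_eq_rpow, Ng_scale g R hR0 ξ, mul_inv, inv_inv]
  rw [bes_scale ((1 - s) / 2) R hR0 ξ, e1, Real.rpow_add hR0, Real.rpow_one, e3]
  have e2 : ((Real.sin (2 * π * t * Ng g ξ) : ℝ) : ℂ) =
      2 * π * ((1 / (4 * π * Complex.I) : ℂ) *
            Complex.exp (((2 * π * t * Ng g ξ : ℝ) : ℂ) * Complex.I) +
          (-(1 / (4 * π * Complex.I)) : ℂ) *
            Complex.exp (((-(2 * π * t * Ng g ξ) : ℝ) : ℂ) * Complex.I)) := by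
    rw [Complex.ofReal_sin, Complex.sin, Complex.ofReal_neg]
    have hI := Complex.I_ne_zero
    field_simp
    rw [Complex.I_sq]
    ring
  have e4 : ((Real.sin (2 * π * t * Ng g ξ) / (2 * π * Ng g ξ) : ℝ) : ℂ) =
      ((Real.sin (2 * π * t * Ng g ξ) : ℝ) : ℂ) * (1 / (2 * π)) * ((Ng g ξ : ℝ) : ℂ)⁻¹ := by
    push_cast
    field_simp
  rw [Complex.ofReal_mul (Real.sin (2 * π * t * Ng g ξ) / (2 * π * Ng g ξ)), e4, e2]
  push_cast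
  field_simp

/-- the exponent of the frequency -/
noncomputable def ex (n k : ℕ) (p : ℝ) : ℝ :=
  if p ≤ 4 then ((n : ℝ) - k + 1) * ((p - 2) / 2) else (n : ℝ) - k + 1 + (p - 4) * ((n - 1) / 2)

/-- the estimate for rough functions, all exponents -/
theorem rough_all (hn : 1 ≤ n) (hK : S_KL1 n) (hI : ∀ p : ℝ, 4 < p → S_INF p)
    (I : Finset (Fin n)) (p : ℝ) (hp : 2 ≤ p) (ε : ℝ) (hε : 0 < ε) :
    RoughI n I p (ex n I.card p + ε) := by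
  unfold ex
  split_ifs with h
  · exact rough_lo hn I p hp h ε hε
  · push Not at h
    exact rough_hi hn hK I p h (hI p h) ε hε

/-- the first propagator -/
theorem prop0 (hn : 1 ≤ n) (hK : S_KL1 n) (hI : ∀ p : ℝ, 4 < p → S_INF p)
    (I : Finset (Fin n)) (p : ℝ) (hp : 2 ≤ p) (s : ℝ) (hs : ex n I.card p < s * p) :
    ∃ K : ℝ, 0 < K ∧ ∀ g₀ ∈ box n, ∀ h : 𝓢(E n, ℂ),
      ∫⁻ g in box n, ∫⁻ t in Set.Icc (1 : ℝ) 2, ∫⁻ x : E n,
        ‖inv (fun ξ => L0 s (mix I g₀ g, t, ξ) * 𝓕 (h : E n → ℂ) ξ) x‖ₑ ^ p ≤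
      ENNReal.ofReal K * ∫⁻ x : E n, ‖h x‖ₑ ^ p := by
  have hp1 : 1 ≤ p := by linarith
  have hE3 := Pool.Agent.T9h82.LS.e3 n (Pool.Agent.T9h82.LS.e2 n)
  obtain ⟨C, hC, hM⟩ := mm_mul (Pool.Agent.T9h82.LS.hi n hE3) (-s / 2) 0
  obtain ⟨C0, hC0, hLO⟩ := Pool.Agent.T9h82.LS.lo n hE3 (-s / 2) (phi n) phi_smooth
    (fun η hη => phi_zero η hη.le)
  have hε : 0 < (s * p - ex n I.card p) / 2 := by linarith
  refine genI I p hp1 (ex n I.card p + (s * p - ex n I.card p) / 2) s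
    ((s * p - ex n I.card p) / 2) hε (by ring) (Pool.Agent.T9h82.LS.link n hn)
    (rough_all hn hK hI I p hp _ hε) (mm (-s / 2) 0) (mm_neg _ _) (mm_meas _ _)
    (mm_bdd _ _) C hC (hM p hp1) (L0 s) (L0_meas s) (fun g _ t _ h => L0_int s g t h)
    (1 / 2) (1 / 2) (by norm_num) (by norm_num) (fun g _ t _ R hR ξ => L0_shell s g t R hR ξ)
    C0 ?_
  intro g hg t ht
  have h1 := (hLO t ht (fun i => (g i)⁻¹) (fun i => inv_mem g hg i) p hp1).1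
  have e : (fun ξ : E n => ((phi n ξ : ℝ) : ℂ) * L0 s (g, t, ξ)) =
      fun ξ => ((Real.cos (2 * π * t * Real.sqrt (Qd (fun i => (g i)⁻¹) ξ)) *
        (1 + 4 * π ^ 2 * ‖ξ‖ ^ 2) ^ (-s / 2) * phi n ξ : ℝ) : ℂ) := by
    funext ξ
    rw [sqrtQ]
    unfold L0
    push_cast
    ring
  rw [e]
  exact h1

/-- the second propagator -/
theorem prop1 (hn : 1 ≤ n) (hK : S_KL1 n) (hI : ∀ p : ℝ, 4 < p → S_INF p)
    (I : Finset (Fin n)) (p : ℝ) (hp : 2 ≤ p) (s : ℝ) (hs : ex n I.card p < s * p) :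
    ∃ K : ℝ, 0 < K ∧ ∀ g₀ ∈ box n, ∀ h : 𝓢(E n, ℂ),
      ∫⁻ g in box n, ∫⁻ t in Set.Icc (1 : ℝ) 2, ∫⁻ x : E n,
        ‖inv (fun ξ => L1 s (mix I g₀ g, t, ξ) * 𝓕 (h : E n → ℂ) ξ) x‖ₑ ^ p ≤
      ENNReal.ofReal K * ∫⁻ x : E n, ‖h x‖ₑ ^ p := by
  have hp1 : 1 ≤ p := by linarith
  have hE3 := Pool.Agent.T9h82.LS.e3 n (Pool.Agent.T9h82.LS.e2 n)
  obtain ⟨C, hC, hM⟩ := mm_mul (Pool.Agent.T9h82.LS.hi n hE3) ((1 - s) / 2) (-(1 / 2))
  obtain ⟨C0, hC0, hLO⟩ := Pool.Agent.T9h82.LS.lo n hE3 ((1 - s) / 2) (phi n) phi_smooth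
    (fun η hη => phi_zero η hη.le)
  have hε : 0 < (s * p - ex n I.card p) / 2 := by linarith
  have hc : ‖(1 / (4 * π * Complex.I) : ℂ)‖ ≤ 1 := by
    rw [norm_div, norm_mul, norm_mul, Complex.norm_I, Complex.norm_real,
      Real.norm_of_nonneg Real.pi_pos.le]
    norm_num
    have h1 := Real.pi_gt_three
    have h2 : π⁻¹ ≤ 1 := inv_le_one_of_one_le₀ (by linarith)
    linarith
  refine genI I p hp1 (ex n I.card p + (s * p - ex n I.card p) / 2) s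
    ((s * p - ex n I.card p) / 2) hε (by ring) (Pool.Agent.T9h82.LS.link n hn)
    (rough_all hn hK hI I p hp _ hε) (mm ((1 - s) / 2) (-(1 / 2))) (mm_neg _ _) (mm_meas _ _)
    (mm_bdd _ _) C hC (hM p hp1) (L1 s) (L1_meas s) (fun g _ t ht h => L1_int s g t ht h)
    (1 / (4 * π * Complex.I)) (-(1 / (4 * π * Complex.I))) hc (by rw [norm_neg]; exact hc)
    (fun g hg t _ R hR ξ => L1_shell s g hg t R hR ξ) C0 ?_
  intro g hg t ht
  have h1 := (hLO t ht (fun i => (g i)⁻¹) (fun i => inv_mem g hg i) p hp1).2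
  have e : (fun ξ : E n => ((phi n ξ : ℝ) : ℂ) * L1 s (g, t, ξ)) =
      fun ξ => ((Real.sin (2 * π * t * Real.sqrt (Qd (fun i => (g i)⁻¹) ξ)) /
        (2 * π * Real.sqrt (Qd (fun i => (g i)⁻¹) ξ)) *
        (1 + 4 * π ^ 2 * ‖ξ‖ ^ 2) ^ ((1 - s) / 2) * phi n ξ : ℝ) : ℂ) := by
    funext ξ
    rw [sqrtQ]
    unfold L1
    push_cast
    ring
  rw [e]
  exact h1

/-- the wave equations of the metrics -/
theorem metrics (hn : 1 ≤ n) (hK : S_KL1 n) (hI : ∀ p : ℝ, 4 < p → S_INF p)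
    (I : Finset (Fin n)) (p : ℝ) (hp : 2 ≤ p) (s : ℝ) (hs : ex n I.card p < s * p) :
    ∃ K : ℝ, 0 < K ∧ ∀ g₀ ∈ box n, ∀ u₀ u₁ : 𝓢(E n, ℂ),
      ∫⁻ g in box n, ∫⁻ t in Set.Icc (1 : ℝ) 2, ∫⁻ x : E n,
        ‖waveg (mix I g₀ g) (𝓕 (u₀ : E n → ℂ)) (𝓕 (u₁ : E n → ℂ)) t x‖ₑ ^ p ≤
      ENNReal.ofReal K * ((∫⁻ x : E n, ‖inv (fun ξ => bes s ξ * 𝓕 (u₀ : E n → ℂ) ξ) x‖ₑ ^ p) +
        ∫⁻ x : E n, ‖inv (fun ξ => bes (s - 1) ξ * 𝓕 (u₁ : E n → ℂ) ξ) x‖ₑ ^ p) := by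
  have hp0 : 0 < p := by linarith
  obtain ⟨K0, hK0, h0⟩ := prop0 hn hK hI I p hp s hs
  obtain ⟨K1, hK1, h1⟩ := prop1 hn hK hI I p hp s hs
  refine ⟨2 ^ p * (K0 + K1), by positivity, ?_⟩
  intro g₀ hg₀ u₀ u₁
  have hmix : Measurable (mix I g₀) := (mix_cont I g₀).measurable
  obtain ⟨f₀, hf₀, hf₀'⟩ := mult (bes s) (bes_tg s) u₀
  obtain ⟨f₁, hf₁, hf₁'⟩ := mult (bes (s - 1)) (bes_tg (s - 1)) u₁
  have e0 : ∫⁻ x : E n, ‖inv (fun ξ => bes s ξ * 𝓕 (u₀ : E n → ℂ) ξ) x‖ₑ ^ p =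
      ∫⁻ x : E n, ‖f₀ x‖ₑ ^ p := lintegral_congr fun x => by rw [hf₀' x]
  have e1 : ∫⁻ x : E n, ‖inv (fun ξ => bes (s - 1) ξ * 𝓕 (u₁ : E n → ℂ) ξ) x‖ₑ ^ p =
      ∫⁻ x : E n, ‖f₁ x‖ₑ ^ p := lintegral_congr fun x => by rw [hf₁' x]
  rw [e0, e1]
  have hbb : ∀ (a : ℝ) (ξ : E n), (((1 + 4 * π ^ 2 * ‖ξ‖ ^ 2) ^ (-a / 2) : ℝ) : ℂ) * bes a ξ = 1 := by
    intro a ξ
    unfold bes
    rw [← Complex.ofReal_mul, ← Real.rpow_add (by positivity)]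
    have : -a / 2 + a / 2 = 0 := by ring
    rw [this, Real.rpow_zero, Complex.ofReal_one]
  have hF : ∀ (g : Fin n → ℝ) (t : ℝ), t ∈ Set.Icc (1 : ℝ) 2 → ∀ x : E n,
      waveg g (𝓕 (u₀ : E n → ℂ)) (𝓕 (u₁ : E n → ℂ)) t x =
      inv (fun ξ => L0 s (g, t, ξ) * 𝓕 (f₀ : E n → ℂ) ξ) x +
        inv (fun ξ => L1 s (g, t, ξ) * 𝓕 (f₁ : E n → ℂ) ξ) x := by
    intro g t ht x
    rw [← inv_add _ _ (L0_int s g t f₀) (L1_int s g t ht f₁)]
    unfold waveg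
    congr 1
    funext ξ
    rw [hf₀ ξ, hf₁ ξ]
    unfold L0 L1
    simp only
    have b0 := hbb s ξ
    have b1 := hbb (s - 1) ξ
    have e2 : -(s - 1) / 2 = (1 - s) / 2 := by ring
    rw [e2] at b1
    rw [Complex.ofReal_mul (Real.cos _), Complex.ofReal_mul (Real.sin _ / _)]
    linear_combination (-((Real.cos (2 * π * t * Ng g ξ) : ℝ) : ℂ) * 𝓕 (u₀ : E n → ℂ) ξ) * b0 -
      (((Real.sin (2 * π * t * Ng g ξ) / (2 * π * Ng g ξ) : ℝ) : ℂ) * 𝓕 (u₁ : E n → ℂ) ξ) * b1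
  set A : (Fin n → ℝ) × ℝ × E n → ℂ := fun q =>
    inv (fun ξ => L0 s (mix I g₀ q.1, q.2.1, ξ) * 𝓕 (f₀ : E n → ℂ) ξ) q.2.2 with hA
  set B : (Fin n → ℝ) × ℝ × E n → ℂ := fun q =>
    inv (fun ξ => L1 s (mix I g₀ q.1, q.2.1, ξ) * 𝓕 (f₁ : E n → ℂ) ξ) q.2.2 with hB
  have hAm : Measurable A := by
    refine meas_inv (fun q => L0 s (mix I g₀ q.1, q.2.1, q.2.2) * 𝓕 (f₀ : E n → ℂ) q.2.2) ?_
    refine Measurable.mul ?_ ((fou_cont f₀).measurable.comp (by fun_prop))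
    exact Measurable.comp (g := L0 s) (f := fun q : (Fin n → ℝ) × ℝ × E n =>
      (mix I g₀ q.1, q.2.1, q.2.2)) (L0_meas s) (by fun_prop)
  have hBm : Measurable B := by
    refine meas_inv (fun q => L1 s (mix I g₀ q.1, q.2.1, q.2.2) * 𝓕 (f₁ : E n → ℂ) q.2.2) ?_
    refine Measurable.mul ?_ ((fou_cont f₁).measurable.comp (by fun_prop))
    exact Measurable.comp (g := L1 s) (f := fun q : (Fin n → ℝ) × ℝ × E n =>
      (mix I g₀ q.1, q.2.1, q.2.2)) (L1_meas s) (by fun_prop)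
  have a0 := h0 g₀ hg₀ f₀
  have a1 := h1 g₀ hg₀ f₁
  set μ : Measure ((Fin n → ℝ) × ℝ × E n) := (volume.restrict (box n)).prod
    ((volume.restrict (Set.Icc (1 : ℝ) 2)).prod (volume : Measure (E n))) with hμ
  calc ∫⁻ g in box n, ∫⁻ t in Set.Icc (1 : ℝ) 2, ∫⁻ x : E n,
        ‖waveg (mix I g₀ g) (𝓕 (u₀ : E n → ℂ)) (𝓕 (u₁ : E n → ℂ)) t x‖ₑ ^ p
      ≤ ∫⁻ g in box n, ∫⁻ t in Set.Icc (1 : ℝ) 2, ∫⁻ x : E n, ENNReal.ofReal (2 ^ p) *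
          (‖A (g, t, x)‖ₑ ^ p + ‖B (g, t, x)‖ₑ ^ p) := by
        refine lintegral_mono fun g => ?_
        refine setLIntegral_mono' measurableSet_Icc fun t ht => ?_
        refine lintegral_mono fun x => ?_
        rw [hF _ t ht x]
        exact (ENNReal.rpow_le_rpow (enorm_add_le _ _) hp0.le).trans (add_rpow_le2 _ _ p hp0.le)
    _ = ENNReal.ofReal (2 ^ p) * (∫⁻ q, ‖A q‖ₑ ^ p ∂μ + ∫⁻ q, ‖B q‖ₑ ^ p ∂μ) := by
        rw [iter (fun q => ENNReal.ofReal (2 ^ p) * (‖A q‖ₑ ^ p + ‖B q‖ₑ ^ p))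
          (((hAm.enorm.pow_const p).add (hBm.enorm.pow_const p)).const_mul _), ← hμ,
          lintegral_const_mul' _ _ ENNReal.ofReal_ne_top,
          lintegral_add_left (hAm.enorm.pow_const p)]
    _ ≤ ENNReal.ofReal (2 ^ p) * (ENNReal.ofReal K0 * (∫⁻ x : E n, ‖f₀ x‖ₑ ^ p) +
          ENNReal.ofReal K1 * ∫⁻ x : E n, ‖f₁ x‖ₑ ^ p) := by
        refine mul_le_mul' le_rfl (add_le_add ?_ ?_)
        · rw [hμ, ← iter _ (hAm.enorm.pow_const p)]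
          exact a0
        · rw [hμ, ← iter _ (hBm.enorm.pow_const p)]
          exact a1
    _ ≤ ENNReal.ofReal (2 ^ p) * (ENNReal.ofReal (K0 + K1) * (∫⁻ x : E n, ‖f₀ x‖ₑ ^ p) +
          ENNReal.ofReal (K0 + K1) * ∫⁻ x : E n, ‖f₁ x‖ₑ ^ p) := by
        refine mul_le_mul' le_rfl (add_le_add ?_ ?_)
        · exact mul_le_mul' (ENNReal.ofReal_le_ofReal (by linarith)) le_rfl
        · exact mul_le_mul' (ENNReal.ofReal_le_ofReal (by linarith)) le_rfl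
    _ = _ := by
        rw [← mul_add, ← mul_assoc, ← ENNReal.ofReal_mul (by positivity)]

end Pool.Agent.T9h44.LS5
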